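import Pool.Agent.Y831.RC7.Avg7
import Pool.Agent.Y831.RC6.Almost6

set_option autoImplicit false
set_option linter.unusedVariables false

/-! # Long runs in almost all intervals of length up to `exp (√(log X))` -/

namespace Pool.Agent.Y831.RC

open Finset Filter Pool.Agent.H256R2.SC

open scoped Classical

theorem ev_T7 (t : ℝ) (ht : 0 < t) (ht1 : t < 1) : ∃ T₀ : ℝ, ∀ T : ℝ, T₀ ≤ T →
    2 * ((1 - t) * Real.log T) ^ 2 ≤ Real.exp (t * Real.log T) ∧
    2 ≤ (1 - t) * Real.log T := by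
  have h1t : 0 < 1 - t := by linarith
  have h1 : ∀ᶠ T : ℝ in atTop, 12 / t ^ 3 ≤ Real.log T :=
    Real.tendsto_log_atTop.eventually_ge_atTop _
  have h2 : ∀ᶠ T : ℝ in atTop, 2 ≤ (1 - t) * Real.log T := by
    filter_upwards [Real.tendsto_log_atTop.eventually_ge_atTop (2 / (1 - t))] with T hT
    rw [div_le_iff₀ h1t] at hT
    linarith
  obtain ⟨T₀, hT₀⟩ := Filter.eventually_atTop.1 (h1.and h2)
  refine ⟨T₀, fun T hT => ?_⟩
  obtain ⟨g1, g2⟩ := hT₀ T hT
  refine ⟨?_, g2⟩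
  set s := Real.log T with hs
  have hs0 : 0 ≤ s := le_trans (by positivity) g1
  have h3 := Real.pow_div_factorial_le_exp (t * s) (by positivity) 3
  have h4 : ((1 - t) * s) ^ 2 ≤ s ^ 2 := by
    apply pow_le_pow_left₀ (by positivity)
    nlinarith
  have h5 : 2 * s ^ 2 ≤ (t * s) ^ 3 / (Nat.factorial 3 : ℕ) := by
    have e1 : ((Nat.factorial 3 : ℕ) : ℝ) = 6 := by norm_num [Nat.factorial]
    rw [e1, le_div_iff₀ (by norm_num)]
    rw [div_le_iff₀ (by positivity)] at g1
    have e2 := mul_le_mul_of_nonneg_right g1 (sq_nonneg s)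
    have e3 : (t * s) ^ 3 = s * t ^ 3 * s ^ 2 := by ring
    rw [e3]
    linarith
  linarith

theorem ev_s7 : ∃ L₀ : ℝ, ∀ L : ℝ, L₀ ≤ L → Real.log L ≤ Real.sqrt L := by
  obtain ⟨L₀, h⟩ := ev_sq7 1 one_pos
  refine ⟨max L₀ 1, fun L hL => ?_⟩
  have h1 := h L ((le_max_left _ _).trans hL)
  rw [one_mul] at h1
  exact Real.le_sqrt_of_sq_le h1

/-- in almost all intervals `(n, n + e^T log X]`, `n` in an interval of length `X`, there are
`c log X log T` consecutive integers with a prime factor at most `X^δ`, if `c < 1 / 32`,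
uniformly for `T₀ ≤ T ≤ √(log X)` -/
theorem almost7 (c δ η : ℝ) (hc : 0 < c) (hc32 : c < 1 / 32) (hδ : 0 < δ) (hη : 0 < η) :
    ∃ T₀ X₀ : ℝ, ∀ X : ℝ, X₀ ≤ X → ∀ T : ℝ, T₀ ≤ T →
      T ≤ Real.sqrt (Real.log X) → ∀ M : ℝ,
      (((Ioc ⌊M⌋ ⌊M + X⌋).filter (fun n : ℤ => ¬ LongRun (c * (Real.log X * Real.log T)) (X ^ δ)
        (Real.exp T * Real.log X) n)).card : ℝ) ≤ η * X := by
  have hc4 : c < 1 / 4 := by linarith
  obtain ⟨t, ht, ht8, htδ, htc⟩ : ∃ t : ℝ, 0 < t ∧ t ≤ 1 / 16 ∧ t ≤ δ ∧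
      (1 + t) * (1 + t) ^ 2 * (8 * c) ≤ (1 / 4 - 3 * t) * (1 - t) := by
    refine ⟨min (1 / 16) (min δ ((1 / 4 - 8 * c) / 8)), ?_, min_le_left _ _, ?_, ?_⟩
    · exact lt_min (by norm_num) (lt_min hδ (by linarith))
    · exact (min_le_right _ _).trans (min_le_left _ _)
    · set t := min (1 / 16) (min δ ((1 / 4 - 8 * c) / 8)) with ht
      have h1 : t ≤ (1 / 4 - 8 * c) / 8 := (min_le_right _ _).trans (min_le_right _ _)
      have h2 : t ≤ 1 / 16 := min_le_left _ _
      have h3 : 0 < t := lt_min (by norm_num) (lt_min hδ (by linarith))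
      have h4 : (1 + t) * (1 + t) ^ 2 ≤ 1 + 4 * t := by nlinarith [sq_nonneg t]
      have h5 : (1 + t) * (1 + t) ^ 2 * (8 * c) ≤ (1 + 4 * t) * (8 * c) :=
        mul_le_mul_of_nonneg_right h4 (by linarith)
      have h6 : (1 + 4 * t) * (8 * c) ≤ 8 * c + t := by nlinarith
      have h7 : 1 / 4 - 13 / 4 * t ≤ (1 / 4 - 3 * t) * (1 - t) := by nlinarith
      linarith
  obtain ⟨θ, hθ0, hθ1, hθη⟩ : ∃ θ : ℝ, 0 < θ ∧ θ ≤ 1 ∧ 16 * θ ≤ η := by
    refine ⟨min 1 (η / 16), lt_min one_pos (by positivity), min_le_left _ _, ?_⟩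
    have := min_le_right 1 (η / 16)
    linarith
  obtain ⟨e₀, L₁, hcov⟩ := cov7 t θ ht ht8 hθ0 hθ1
  obtain ⟨CR, hCR0, hWR⟩ := WW_ratio
  obtain ⟨c₀, C₀, hc₀, _, hWb⟩ := WW_bounds
  obtain ⟨T₀, hT₀⟩ := ev_T6 t e₀ (Real.log (3 / θ)) ht (by linarith)
  obtain ⟨T₁, hT₁⟩ := ev_T7 t ht (by linarith)
  obtain ⟨L₃, hL₃⟩ := ev_s7
  obtain ⟨L₀, hL₀⟩ := ev_A5 t CR ht (by linarith)
  obtain ⟨L₂, hL₂⟩ : ∃ L₂ : ℝ, ∀ L : ℝ, L₂ ≤ L → 2 / (c * c₀ * t ^ 2 * θ) * Real.log L ≤ L := by
    have e2 := Real.isLittleO_log_id_atTop.def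
      (show (0:ℝ) < 1 / (2 / (c * c₀ * t ^ 2 * θ)) by positivity)
    have e3 : ∀ᶠ L : ℝ in atTop, 2 / (c * c₀ * t ^ 2 * θ) * Real.log L ≤ L := by
      filter_upwards [e2, eventually_ge_atTop (1:ℝ)] with L hL hL1
      rw [Real.norm_of_nonneg (Real.log_nonneg hL1), id, Real.norm_of_nonneg (by linarith)] at hL
      have h0 : 0 < 2 / (c * c₀ * t ^ 2 * θ) := by positivity
      have h1 := mul_le_mul_of_nonneg_left hL h0.le
      have h2 : 2 / (c * c₀ * t ^ 2 * θ) * (1 / (2 / (c * c₀ * t ^ 2 * θ)) * L) = L := by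
        field_simp
      linarith
    exact Filter.eventually_atTop.1 e3
  refine ⟨max T₀ T₁, Real.exp (max (max (max L₀ L₁) L₂) L₃), fun X hX T hT' hTL M => ?_⟩
  have hT : T₀ ≤ T := (le_max_left _ _).trans hT'
  obtain ⟨g4, g5⟩ := hT₁ T ((le_max_right _ _).trans hT')
  have hX0 : 0 < X := lt_of_lt_of_le (Real.exp_pos _) hX
  have hLLL' : max (max (max L₀ L₁) L₂) L₃ ≤ Real.log X := by
    rw [Real.le_log_iff_exp_le hX0]
    exact hX
  have hLLL : max (max L₀ L₁) L₂ ≤ Real.log X := (le_max_left _ _).trans hLLL'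
  have k9 := hL₃ (Real.log X) ((le_max_right _ _).trans hLLL')
  have hLL : L₀ ≤ Real.log X := ((le_max_left _ _).trans (le_max_left _ _)).trans hLLL
  have hLL1 : L₁ ≤ Real.log X := ((le_max_right _ _).trans (le_max_left _ _)).trans hLLL
  have hLL2 : L₂ ≤ Real.log X := (le_max_right _ _).trans hLLL
  obtain ⟨g0, g1, g2, g3⟩ := hT₀ T hT
  obtain ⟨k0, k1, k2, k3, k4, k5, k6, k7⟩ := hL₀ (Real.log X) hLL
  have k8 := hL₂ (Real.log X) hLL2
  have hXL : Real.exp (Real.log X) = X := Real.exp_log hX0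
  set L := Real.log X with hL
  set l := Real.log L with hl
  have hL0 : 0 < L := by linarith only [k0]
  have hl0 : 0 ≤ l := by linarith only [k1]
  have hlL : l ≤ L := (Real.log_le_sub_one_of_pos hL0).trans (by linarith only [])
  have hTt : T ≤ Real.sqrt L := hTL
  have hss : Real.sqrt L * Real.sqrt L = L := Real.mul_self_sqrt hL0.le
  have hs1 : 1 ≤ Real.sqrt L := by
    rw [Real.one_le_sqrt]
    exact k0
  have hsL : Real.sqrt L ≤ L := by nlinarith only [hss, hs1]
  have hTl : T ≤ L := hTt.trans hsL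
  have hlT0 : 0 ≤ Real.log T := Real.log_nonneg g0
  have hlTl : Real.log T ≤ l := Real.log_le_log (by linarith only [g0]) hTl
  have hc6 := hcov L hLL1 ((1 - t) * Real.log T) g1
    (mul_le_mul_of_nonneg_left hlTl (by linarith only [ht8]))
  set e := (1 - t) * Real.log T with he
  set F := c * (L * Real.log T) with hF
  have hlog1 : 1 ≤ Real.log T := by
    have : 0 ≤ t * Real.log T := by positivity
    linarith only [this, g2]
  have hFpos : 0 < F := by positivity
  have hF0 : 0 ≤ F := hFpos.le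
  have hLT0 : 0 ≤ L * Real.log T := by positivity
  set w := L ^ 8 with hw
  have hw0 : 0 < w := by positivity
  have hlw : Real.log w = 8 * l := by rw [hw, Real.log_pow]; push_cast; ring
  have hLw : L ^ 2 ≤ w := pow_le_pow_right₀ k0 (by norm_num)
  set x := t / 8 * L with hx
  have hx0 : 0 ≤ x := by positivity
  have hxL : x ≤ L := by
    have : t / 8 * L ≤ 1 * L := mul_le_mul_of_nonneg_right (by linarith only [ht8]) hL0.le
    rw [hx]
    linarith only [this]
  have hxw : x ≤ w := by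
    refine le_trans (hxL.trans ?_) hLw
    nlinarith only [k0]
  have hPpos : 0 < primorial ⌊x⌋₊ := primorial_pos _
  have hPr : (0:ℝ) < (primorial ⌊x⌋₊ : ℕ) := by exact_mod_cast hPpos
  have hPx : ((primorial ⌊x⌋₊ : ℕ) : ℝ) ≤ Real.exp (t / 4 * L) := by
    refine (primorial_le_exp x hx0).trans ?_
    apply Real.exp_le_exp.2
    rw [hx]
    linarith only []
  have hPX : ((primorial ⌊x⌋₊ : ℕ) : ℝ) ≤ X := by
    rw [← hXL]
    have := Real.exp_pos (t / 4 * L)
    linarith only [hPx, k7, this]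
  -- the sizes
  set S := F * WW x with hS
  have hS0 : 0 < S := mul_pos hFpos (WW_pos x)
  have hWx : WW x ≤ (8 * (1 + t) ^ 2) * WW w := by
    have e1 := hWR x w k2 hxw
    rw [hlw] at e1
    have e2 : WW w * (8 * l / Real.log x) * Real.exp (CR / Real.log x) =
        (8 * l / Real.log x * Real.exp (CR / Real.log x)) * WW w := by ring
    rw [e2] at e1
    refine e1.trans (mul_le_mul_of_nonneg_right ?_ (WW_pos w).le)
    have hlx0 : 0 < Real.log x := Real.log_pos (by linarith only [k2])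
    have e3 : l / Real.log x * Real.exp (CR / Real.log x) ≤
        (1 + t) * l / Real.log x * Real.exp (CR / Real.log x) := by
      apply mul_le_mul_of_nonneg_right _ (Real.exp_pos _).le
      apply div_le_div_of_nonneg_right _ hlx0.le
      nlinarith only [mul_nonneg ht.le hl0]
    have e4 := e3.trans k4
    have e5 : 8 * l / Real.log x * Real.exp (CR / Real.log x) =
        8 * (l / Real.log x * Real.exp (CR / Real.log x)) := by ring
    rw [e5]
    linarith only [e4]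
  have hbound : (1 + t) * S ≤ (1 / 4 - 3 * t) * (e * L * WW w) := by
    have e1 : S ≤ F * ((8 * (1 + t) ^ 2) * WW w) := mul_le_mul_of_nonneg_left hWx hF0
    have e2 : (1 + t) * S ≤ (1 + t) * (F * ((8 * (1 + t) ^ 2) * WW w)) :=
      mul_le_mul_of_nonneg_left e1 (by linarith only [ht])
    have e3 : 0 ≤ L * Real.log T * WW w := by
      have := WW_pos w
      positivity
    have e4 := mul_le_mul_of_nonneg_right htc e3
    calc (1 + t) * S ≤ (1 + t) * (F * ((8 * (1 + t) ^ 2) * WW w)) := e2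
      _ = (1 + t) * (1 + t) ^ 2 * (8 * c) * (L * Real.log T * WW w) := by rw [hF]; ring
      _ ≤ (1 / 4 - 3 * t) * (1 - t) * (L * Real.log T * WW w) := e4
      _ = _ := by rw [he]; ring
  have hSbig : 2 / (t ^ 2 * S) ≤ θ := by
    have hlx : Real.log x ≤ l := Real.log_le_log (by linarith only [k2]) hxL
    have hlx0 : 0 < Real.log x := Real.log_pos (by linarith only [k2])
    have e1 : c₀ ≤ WW x * l := by
      refine (hWb x k2).1.trans ?_
      exact mul_le_mul_of_nonneg_left hlx (WW_pos x).le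
    have e2 : c * L ≤ F := by
      rw [hF]
      apply mul_le_mul_of_nonneg_left _ hc.le
      have : L * 1 ≤ L * Real.log T := mul_le_mul_of_nonneg_left hlog1 hL0.le
      linarith only [this]
    have e3 : c * L * c₀ ≤ S * l := by
      calc c * L * c₀ ≤ F * (WW x * l) := mul_le_mul e2 e1 hc₀.le hF0
        _ = S * l := by rw [hS]; ring
    have hl1 : 0 < l := by linarith only [k1]
    rw [div_le_iff₀ (by positivity)]
    have e4 : 2 * l ≤ θ * t ^ 2 * (c * L * c₀) := by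
      have h0 : 0 ≤ c * c₀ * t ^ 2 * θ := by positivity
      have h1 := mul_le_mul_of_nonneg_left k8 h0
      have h2 : c * c₀ * t ^ 2 * θ * (2 / (c * c₀ * t ^ 2 * θ) * l) = 2 * l := by
        field_simp
      rw [h2] at h1
      linarith only [h1]
    have e5 : θ * t ^ 2 * (c * L * c₀) ≤ θ * t ^ 2 * (S * l) :=
      mul_le_mul_of_nonneg_left e3 (by positivity)
    have e6 : 2 * l ≤ (θ * (t ^ 2 * S)) * l := by linarith only [e4, e5]
    exact le_of_mul_le_mul_right e6 hl1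
  have hXδ : X ^ δ = Real.exp (δ * L) := by
    rw [Real.rpow_def_of_pos hX0, mul_comm]
  have hy : Real.exp (t ^ 2 * L / (100 * e)) ≤ X ^ δ := by
    rw [hXδ]
    apply Real.exp_le_exp.2
    have he0 : 0 < 100 * e := by linarith only [g2]
    rw [div_le_iff₀ he0]
    have e1 : t ^ 2 ≤ δ * (100 * e) := q_tδ ht (by linarith only [ht8]) htδ g2
    have e2 := mul_le_mul_of_nonneg_right e1 hL0.le
    linarith only [e2]
  have hxy : x ≤ X ^ δ := by
    rw [hXδ]
    have e1 := Real.add_one_le_exp (δ * L)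
    have e2 : x ≤ δ * L := by
      rw [hx]
      apply mul_le_mul_of_nonneg_right _ hL0.le
      linarith only [htδ, ht]
    linarith only [e1, e2]
  have hlen : Real.exp ((1 - t) * L) ≤ X / ((primorial ⌊x⌋₊ : ℕ) : ℝ) - 1 := by
    have e2 : Real.exp ((1 - t / 4) * L) ≤ X / ((primorial ⌊x⌋₊ : ℕ) : ℝ) := by
      rw [le_div_iff₀ hPr]
      have e3 : Real.exp ((1 - t / 4) * L) * Real.exp (t / 4 * L) = X := by
        rw [← Real.exp_add, ← hXL]
        congr 1
        ring
      rw [← e3]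
      exact mul_le_mul_of_nonneg_left hPx (Real.exp_pos _).le
    have e3 := Real.exp_pos ((1 - t / 4) * L)
    linarith only [e2, k6, e3]
  -- the number of windows
  set EE₀ := Real.exp (2 * (e ^ 2 * Real.exp e)) with hEE₀
  have hEE1 : 1 ≤ EE₀ := Real.one_le_exp (by positivity)
  set J : ℕ := ⌈2 / θ * EE₀⌉₊ with hJ
  have hJ1 : 2 / θ * EE₀ ≤ J := Nat.le_ceil _
  have hJ2 : (J:ℝ) ≤ 3 / θ * EE₀ := by
    apply r_J (lT := 0) (eT := 0) hθ0 hθ1 hEE1
    exact (Nat.ceil_lt_add_one (by positivity)).le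
  have hJpos : 0 < J := Nat.ceil_pos.2 (by positivity)
  set q : ℕ := ⌊F⌋₊ + 1 with hq
  have hFq : F < q := by
    rw [hq]
    push_cast
    exact Nat.lt_floor_add_one F
  have hq2 : (q:ℝ) ≤ L * Real.log T := by
    rw [hq]
    push_cast
    have e1 : (⌊F⌋₊ : ℝ) ≤ F := Nat.floor_le hF0
    have e2 : F ≤ 1 / 4 * (L * Real.log T) := mul_le_mul_of_nonneg_right hc4.le hLT0
    have e3 : L * 1 ≤ L * Real.log T := mul_le_mul_of_nonneg_left hlog1 hL0.le
    have e4 : 2 * 16 ≤ L := by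
      have : t / 8 * L ≤ 1 / 128 * L := mul_le_mul_of_nonneg_right (by linarith only [ht8]) hL0.le
      linarith only [this, k2, hx]
    linarith only [e1, e2, e3, e4]
  have hJH : (J:ℝ) * q ≤ Real.exp T * L := by
    have e1 : (J:ℝ) * q ≤ 3 / θ * EE₀ * (L * Real.log T) :=
      mul_le_mul hJ2 hq2 (Nat.cast_nonneg _) (by positivity)
    have e2 : 3 / θ * EE₀ * Real.log T ≤ Real.exp T := by
      have e3 : Real.log T ≤ Real.exp (Real.log T) := by
        have := Real.add_one_le_exp (Real.log T)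
        linarith only [this]
      have e4 : 3 / θ * EE₀ * Real.exp (Real.log T) ≤ Real.exp T := by
        rw [hEE₀]
        have e5 : 3 / θ = Real.exp (Real.log (3 / θ)) := (Real.exp_log (by positivity)).symm
        rw [e5, ← Real.exp_add, ← Real.exp_add]
        apply Real.exp_le_exp.2
        linarith only [g3]
      exact (mul_le_mul_of_nonneg_left e3 (by positivity)).trans e4
    have e3 := mul_le_mul_of_nonneg_right e2 hL0.le
    linarith only [e1, e3]
  have he2 : 2 ≤ e := g5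
  have he0' : 0 < e := by linarith only [he2]
  have hT0 : 0 < T := by linarith only [g0]
  have hexpe : Real.exp (-e) = Real.exp (t * Real.log T) / T := by
    have e1 : -e = t * Real.log T - Real.log T := by rw [he]; ring
    rw [e1, Real.exp_sub, Real.exp_log hT0]
  set Y₀ := L * Real.exp (-e) / e ^ 2 with hY₀
  have hTY : T + l ≤ Y₀ := by
    rw [hY₀, le_div_iff₀ (by positivity), hexpe]
    have e1 : (T + l) * e ^ 2 ≤ (Real.sqrt L + Real.sqrt L) * e ^ 2 :=
      mul_le_mul_of_nonneg_right (by linarith only [hTt, k9]) (by positivity)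
    have e2 : (Real.sqrt L + Real.sqrt L) * e ^ 2 ≤ Real.sqrt L * Real.exp (t * Real.log T) := by
      have := mul_le_mul_of_nonneg_left g4 (Real.sqrt_nonneg L)
      linarith only [this]
    have e3 : Real.sqrt L ≤ L / T := by
      rw [le_div_iff₀ hT0]
      calc Real.sqrt L * T ≤ Real.sqrt L * Real.sqrt L :=
            mul_le_mul_of_nonneg_left hTt (Real.sqrt_nonneg L)
        _ = L := hss
    have e4 : Real.sqrt L * Real.exp (t * Real.log T) ≤ L / T * Real.exp (t * Real.log T) :=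
      mul_le_mul_of_nonneg_right e3 (Real.exp_pos _).le
    have e5 : L / T * Real.exp (t * Real.log T) = L * (Real.exp (t * Real.log T) / T) := by ring
    linarith only [e1, e2, e4, e5]
  have hJw : (J:ℝ) * q ≤ Real.exp Y₀ := by
    refine hJH.trans ?_
    have e1 : Real.exp T * L = Real.exp (T + l) := by
      rw [Real.exp_add, hl, Real.exp_log hL0]
    rw [e1]
    exact Real.exp_le_exp.2 hTY
  have hYL : Real.exp Y₀ ≤ Real.exp (L / 2) := by
    apply Real.exp_le_exp.2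
    rw [hY₀, div_le_iff₀ (by positivity)]
    have e1 : Real.exp (-e) ≤ 1 := Real.exp_le_one_iff.2 (by linarith only [he0'])
    have e2 : L * Real.exp (-e) ≤ L * 1 := mul_le_mul_of_nonneg_left e1 hL0.le
    have e3 : (2:ℝ) ≤ e ^ 2 := by nlinarith only [he2]
    have e4 : L / 2 * 2 ≤ L / 2 * e ^ 2 := mul_le_mul_of_nonneg_left e3 (by positivity)
    linarith only [e2, e4]
  have hqLl : (q:ℝ) ≤ L * l := hq2.trans (mul_le_mul_of_nonneg_left hlTl hL0.le)
  have hqw : (q:ℝ) ≤ w := by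
    refine le_trans (hqLl.trans ?_) hLw
    have := mul_le_mul_of_nonneg_left hlL hL0.le
    rw [sq]
    exact this
  have hNc : 2 * (q:ℝ) * L ≤ 2 * (L ^ 2 * l) := by
    have := mul_le_mul_of_nonneg_right hqLl hL0.le
    have e1 : L * l * L = L ^ 2 * l := by ring
    linarith only [this, e1]
  -- good classes
  set s : ℕ → ℕ := fun b => ((Icc 1 ⌊F⌋₊).filter
    (fun k => (primorial ⌊x⌋₊).Coprime (b + k))).card with hs
  set g : ℕ → Prop := fun b => (1 + t) * S < (s b : ℝ) with hg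
  have hgmod : ∀ b, g b ↔ g (b % primorial ⌊x⌋₊) := by
    intro b
    simp only [hg, hs]
    rw [cop_mod (primorial ⌊x⌋₊) ⌊F⌋₊ b]
  have hfew := few_bad (primorial ⌊x⌋₊) J q hPpos hJpos g hgmod
    ((primorial ⌊x⌋₊ : ℝ) / (t ^ 2 * S)) (few_large_prim x F t ht hFpos)
  have hXP0 : 0 ≤ X / ((primorial ⌊x⌋₊ : ℕ) : ℝ) + 1 := by positivity
  have hgoodcls : ∀ b ∈ range (primorial ⌊x⌋₊),
      (J:ℝ) / 2 ≤ (((range J).filter (fun j => ¬ g (b + j * q))).card : ℝ) →
      ((((Ioc ⌊M⌋ ⌊M + X⌋).filter (fun n : ℤ => ¬ LongRun F (X ^ δ) (Real.exp T * L) n)).filter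
        (fun n : ℤ => ((primorial ⌊x⌋₊ : ℕ) : ℤ) ∣ n - b)).card : ℝ) ≤
      7 * θ * (X / ((primorial ⌊x⌋₊ : ℕ) : ℝ) + 1) := by
    intro b _ hb
    rw [Finset.filter_filter]
    apply class7 w (Real.exp Y₀) (Real.exp (t ^ 2 * L / (100 * e))) (X ^ δ) x F (Real.exp T * L)
      (Real.exp ((1 - t) * L)) X M θ ((1 / 4 - 3 * t) * (e * L * WW w)) L (2 * (L ^ 2 * l)) b J q
      hx0 hxw hL0.le hYL hNc hqw hF0 hFq
      hJw hJH hy hxy hθ0.le hX0.le
    · intro G κ _ _ hκ res hi hi2 hi1 hGJ A B hAB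
      apply hc6 G κ hκ res hi hi2 hi1 _ A B hAB
      have e1 : 2 / θ * EE₀ ≤ 2 * G.card := by linarith only [hJ1, hGJ]
      have e2 := mul_le_mul_of_nonneg_left e1 hθ0.le
      have e3 : θ * (2 / θ * EE₀) = 2 * EE₀ := by field_simp
      rw [e3] at e2
      linarith only [e2]
    · refine hb.trans ?_
      have : ((range J).filter (fun j => ¬ g (b + j * q))).card ≤
          ((range J).filter (fun j => ((((Icc 1 ⌊F⌋₊).filter
            (fun k => (primorial ⌊x⌋₊).Coprime (b + j * q + k))).card : ℕ) : ℝ) ≤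
            (1 / 4 - 3 * t) * (e * L * WW w))).card := by
        apply Finset.card_le_card
        intro j hj
        rw [Finset.mem_filter] at hj ⊢
        refine ⟨hj.1, ?_⟩
        have h1 := not_lt.1 hj.2
        exact h1.trans hbound
      exact_mod_cast this
    · exact hlen
  have htriv : ∀ b ∈ range (primorial ⌊x⌋₊),
      ((((Ioc ⌊M⌋ ⌊M + X⌋).filter (fun n : ℤ => ¬ LongRun F (X ^ δ) (Real.exp T * L) n)).filter
        (fun n : ℤ => ((primorial ⌊x⌋₊ : ℕ) : ℤ) ∣ n - b)).card : ℝ) ≤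
      X / ((primorial ⌊x⌋₊ : ℕ) : ℝ) + 1 := by
    intro b _
    rw [Finset.filter_filter]
    convert class_triv (primorial ⌊x⌋₊) hPpos X M hX0.le b
      (fun n : ℤ => ¬ LongRun F (X ^ δ) (Real.exp T * L) n)
  have hfinal := classes6 ((Ioc ⌊M⌋ ⌊M + X⌋).filter
    (fun n : ℤ => ¬ LongRun F (X ^ δ) (Real.exp T * L) n)) (primorial ⌊x⌋₊) hPpos
    (fun b => (J:ℝ) / 2 ≤ (((range J).filter (fun j => ¬ g (b + j * q))).card : ℝ))
    (7 * θ * (X / ((primorial ⌊x⌋₊ : ℕ) : ℝ) + 1)) (X / ((primorial ⌊x⌋₊ : ℕ) : ℝ) + 1)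
    (by positivity) hXP0 _ hgoodcls htriv hfew
  refine hfinal.trans ?_
  set P : ℝ := ((primorial ⌊x⌋₊ : ℕ) : ℝ) with hP
  have e1 : P * (7 * θ * (X / P + 1)) + 2 * (P / (t ^ 2 * S)) * (X / P + 1) =
      (7 * θ + 2 / (t ^ 2 * S)) * (X + P) := by
    field_simp
  rw [e1]
  calc (7 * θ + 2 / (t ^ 2 * S)) * (X + P) ≤ (8 * θ) * (2 * X) := by
        apply mul_le_mul (by linarith only [hSbig]) (by linarith only [hPX]) (by positivity)
          (by positivity)
    _ ≤ η * X := by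
        have := mul_le_mul_of_nonneg_right hθη hX0.le
        linarith only [this]

end Pool.Agent.Y831.RC
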