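import Pool.Agent.Y831.RC7.Cov7b
import Pool.Agent.Y831.RC6.Avg6

set_option autoImplicit false
set_option linter.unusedVariables false

/-! # Long runs in almost all intervals: one class, with collisions -/

namespace Pool.Agent.Y831.RC

open Finset Filter Pool.Agent.H256R2.SC

open scoped Classical

theorem omega_le7 (n : ℕ) (hn : 0 < n) (R : ℝ) (h : (n:ℝ) ≤ Real.exp (R / 2)) :
    (n.primeFactors.card : ℝ) ≤ R := by
  have h1 : 2 ^ n.primeFactors.card ≤ n := by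
    calc 2 ^ n.primeFactors.card = ∏ p ∈ n.primeFactors, 2 := by rw [Finset.prod_const]
      _ ≤ ∏ p ∈ n.primeFactors, p :=
        Finset.prod_le_prod' (fun p hp => (Nat.prime_of_mem_primeFactors hp).two_le)
      _ ≤ n := Nat.le_of_dvd hn (Nat.prod_primeFactors_dvd n)
  have h2 : (2:ℝ) ^ n.primeFactors.card ≤ Real.exp (R / 2) := by
    refine le_trans ?_ h
    exact_mod_cast h1
  have h3 := Real.log_le_log (by positivity) h2
  rw [Real.log_pow, Real.log_exp] at h3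
  have h4 : 1 / 2 ≤ Real.log 2 := by
    have := Real.log_two_gt_d9
    linarith
  have h5 : (0:ℝ) ≤ n.primeFactors.card := Nat.cast_nonneg _
  nlinarith

theorem coll7 (J q j j' F : ℕ) (hq : F < q) (hj : j < J) (hj' : j' < J) (hjj : j ≠ j') (R : ℝ)
    (hR : 0 ≤ R) (hJq : ((J * q : ℕ):ℝ) ≤ Real.exp (R / 2)) (S : Finset ℕ)
    (hS : ∀ p ∈ S, p.Prime ∧ ∃ k l : ℕ, k ≤ F ∧ l ≤ F ∧
      (p:ℤ) ∣ ((j' * q + l : ℕ):ℤ) - ((j * q + k : ℕ):ℤ)) : (S.card:ℝ) ≤ 2 * q * R := by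
  have hq0 : 0 < q := by omega
  have hq0' : (0:ℤ) < q := by exact_mod_cast hq0
  have key : ∀ d ∈ Finset.Ioo (-(q:ℤ)) q, (((j':ℤ) - j) * q + d) ≠ 0 ∧
      |((j':ℤ) - j) * q + d| ≤ (J:ℤ) * q := by
    intro d hd
    rw [Finset.mem_Ioo] at hd
    have hjz : (j:ℤ) + 1 ≤ J := by exact_mod_cast hj
    have hjz' : (j':ℤ) + 1 ≤ J := by exact_mod_cast hj'
    have hj0 : (0:ℤ) ≤ j := Int.natCast_nonneg _
    have hj0' : (0:ℤ) ≤ j' := Int.natCast_nonneg _
    constructor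
    · rcases Nat.lt_or_gt_of_ne hjj with h | h
      · have h1 : (j:ℤ) + 1 ≤ j' := by exact_mod_cast h
        have h2 : 1 * (q:ℤ) ≤ ((j':ℤ) - j) * q := mul_le_mul_of_nonneg_right (by linarith) hq0'.le
        intro h3
        linarith [hd.1]
      · have h1 : (j':ℤ) + 1 ≤ j := by exact_mod_cast h
        have h2 : 1 * (q:ℤ) ≤ ((j:ℤ) - j') * q := mul_le_mul_of_nonneg_right (by linarith) hq0'.le
        intro h3
        nlinarith [hd.2]
    · have h1 : ((j':ℤ) - j) * q ≤ (J - 1) * q := mul_le_mul_of_nonneg_right (by linarith) hq0'.le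
      have h2 : ((j:ℤ) - j') * q ≤ (J - 1) * q := mul_le_mul_of_nonneg_right (by linarith) hq0'.le
      rw [abs_le]
      constructor
      · nlinarith [hd.1]
      · nlinarith [hd.2]
  have hsub : S ⊆ (Finset.Ioo (-(q:ℤ)) q).biUnion
      (fun d => (((j':ℤ) - j) * q + d).natAbs.primeFactors) := by
    intro p hp
    obtain ⟨hpp, k, l, hk, hl, hdvd⟩ := hS p hp
    rw [Finset.mem_biUnion]
    have hd : ((l:ℤ) - k) ∈ Finset.Ioo (-(q:ℤ)) q := by
      rw [Finset.mem_Ioo]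
      constructor <;> omega
    refine ⟨(l:ℤ) - k, hd, ?_⟩
    rw [Nat.mem_primeFactors]
    refine ⟨hpp, ?_, Int.natAbs_ne_zero.2 (key _ hd).1⟩
    rw [← Int.natCast_dvd]
    have h1 : ((j':ℤ) - j) * q + ((l:ℤ) - k) = ((j' * q + l : ℕ):ℤ) - ((j * q + k : ℕ):ℤ) := by
      push_cast
      ring
    rw [h1]
    exact hdvd
  have h1 : S.card ≤ ∑ d ∈ Finset.Ioo (-(q:ℤ)) q,
      (((j':ℤ) - j) * q + d).natAbs.primeFactors.card :=
    (Finset.card_le_card hsub).trans Finset.card_biUnion_le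
  have h2 : (S.card:ℝ) ≤ ∑ d ∈ Finset.Ioo (-(q:ℤ)) q,
      ((((j':ℤ) - j) * q + d).natAbs.primeFactors.card : ℝ) := by
    exact_mod_cast h1
  have h3 : ∀ d ∈ Finset.Ioo (-(q:ℤ)) q,
      ((((j':ℤ) - j) * q + d).natAbs.primeFactors.card : ℝ) ≤ R := by
    intro d hd
    obtain ⟨e1, e2⟩ := key d hd
    apply omega_le7 _ (Int.natAbs_pos.2 e1)
    refine le_trans ?_ hJq
    have e3 : (((((j':ℤ) - j) * q + d).natAbs : ℕ) : ℤ) ≤ ((J * q : ℕ) : ℤ) := by
      rw [Int.natCast_natAbs]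
      push_cast
      exact e2
    have e4 : (((j':ℤ) - j) * q + d).natAbs ≤ J * q := by exact_mod_cast e3
    exact_mod_cast e4
  refine h2.trans ((Finset.sum_le_sum h3).trans ?_)
  rw [Finset.sum_const, nsmul_eq_mul, Int.card_Ioo]
  apply mul_le_mul_of_nonneg_right _ hR
  have e5 : (((q:ℤ) - -(q:ℤ) - 1).toNat) ≤ 2 * q := by omega
  exact_mod_cast e5

theorem res_dvd7 {P p : ℕ} (i : ℤ) (hi : (p:ℤ) ∣ P * i - 1) (b v v' : ℤ)
    (hdvd : (p:ℤ) ∣ -(b + v) * i - -(b + v') * i) : (p:ℤ) ∣ v' - v := by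
  have h3 : (p : ℤ) ∣ (P : ℤ) * (-(b + v) * i - -(b + v') * i) := hdvd.mul_left _
  have h4 : (p : ℤ) ∣ (v' - v) * ((P : ℤ) * i - 1) := hi.mul_left _
  have h5 := dvd_sub h3 h4
  have h6 : (P : ℤ) * (-(b + v) * i - -(b + v') * i) - (v' - v) * ((P : ℤ) * i - 1) = v' - v := by
    ring
  rwa [h6] at h5

theorem class7 (w y₀ y₁ y₂ x F H len X M θ u₀ R Nc : ℝ) (b J q : ℕ) (hx0 : 0 ≤ x) (hxw : x ≤ w)
    (hR : 0 ≤ R) (hy₀ : y₀ ≤ Real.exp (R / 2)) (hNc : 2 * q * R ≤ Nc) (hqw : (q:ℝ) ≤ w)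
    (hF0 : 0 ≤ F) (hFq : F < q) (hJw : (J:ℝ) * q ≤ y₀) (hJH : (J:ℝ) * q ≤ H) (hy : y₁ ≤ y₂)
    (hxy : x ≤ y₂) (hθ : 0 ≤ θ) (hX : 0 ≤ X)
    (hcov : ∀ (G : Finset ℕ) (κ : ℕ → Type) [∀ j, Fintype (κ j)] [∀ j, DecidableEq (κ j)],
      (∀ j ∈ G, (Fintype.card (κ j) : ℝ) ≤ u₀) →
      ∀ res : ∀ j, ℕ → κ j → ℤ,
      (∀ p : ℕ, p.Prime → w < p → ∀ j ∈ G, ∀ k l, k ≠ l →
        ¬ ((p : ℤ) ∣ res j p k - res j p l)) →
      (∀ p : ℕ, p.Prime → w < p → y₀ < p → ∀ j ∈ G, ∀ j' ∈ G, j ≠ j' → ∀ k l,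
        ¬ ((p : ℤ) ∣ res j p k - res j' p l)) →
      (∀ j ∈ G, ∀ j' ∈ G, j ≠ j' → ∀ S : Finset ℕ, (∀ p ∈ S, p.Prime ∧ w < p ∧
        ∃ k l, (p : ℤ) ∣ res j p k - res j' p l) → (S.card : ℝ) ≤ Nc) →
      (J:ℝ) / 2 ≤ G.card →
      ∀ A B : ℤ, len ≤ (B : ℝ) - A →
      (((Ioc A B).filter (fun a => ∀ j ∈ G, ¬ ∀ k : κ j, ∃ p : ℕ, p.Prime ∧
        w < p ∧ (p : ℝ) ≤ y₁ ∧ (p : ℤ) ∣ a - res j p k)).card : ℝ) ≤ 7 * θ * ((B:ℝ) - A))
    (hgood : (J:ℝ) / 2 ≤ (((range J).filter (fun j => ((((Icc 1 ⌊F⌋₊).filter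
      (fun k => (primorial ⌊x⌋₊).Coprime (b + j * q + k))).card : ℕ) : ℝ) ≤ u₀)).card : ℝ))
    (hlen : len ≤ X / (primorial ⌊x⌋₊ : ℝ) - 1) :
    (((Ioc ⌊M⌋ ⌊M + X⌋).filter (fun n : ℤ => ¬ LongRun F y₂ H n ∧
      ((primorial ⌊x⌋₊ : ℕ) : ℤ) ∣ n - b)).card : ℝ) ≤
      7 * θ * (X / (primorial ⌊x⌋₊ : ℝ) + 1) := by
  set P : ℕ := primorial ⌊x⌋₊ with hPdef
  have hPpos : 0 < P := primorial_pos _
  have hPr : (0 : ℝ) < P := by exact_mod_cast hPpos
  have hP0 : (P : ℤ) ≠ 0 := by exact_mod_cast hPpos.ne'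
  have hfloor : ∀ p : ℕ, p ≤ ⌊x⌋₊ ↔ (p : ℝ) ≤ x := fun p => Nat.le_floor_iff hx0
  have hndvdP : ∀ p : ℕ, p.Prime → w < p → ¬ p ∣ P := by
    intro p hp hpX h
    have := (hfloor p).1 ((hp.dvd_primorial_iff).1 h)
    linarith
  -- inverses
  have hinv : ∀ p : ℕ, ∃ i : ℤ, p.Prime → ¬ p ∣ P → (p : ℤ) ∣ P * i - 1 := by
    intro p
    by_cases h : p.Prime ∧ ¬ p ∣ P
    · obtain ⟨i, hi⟩ := LG.inv_exists h.1 h.2
      exact ⟨i, fun _ _ => hi⟩
    · exact ⟨0, fun h1 h2 => absurd ⟨h1, h2⟩ h⟩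
  choose ip hip using hinv
  have hqF : ⌊F⌋₊ < q := (Nat.floor_lt hF0).2 hFq
  set U : ℕ → Finset ℕ := fun j => (Icc 1 ⌊F⌋₊).filter (fun k => P.Coprime (b + j * q + k))
    with hU
  set G : Finset ℕ := (range J).filter (fun j => (((U j).card : ℕ) : ℝ) ≤ u₀) with hG
  set A' : ℤ := ⌊(M - b) / P⌋ with hA'
  set B' : ℤ := ⌊(M + X - b) / P⌋ with hB'
  have hBA : X / (P : ℝ) - 1 ≤ (B' : ℝ) - A' := by
    have e1 := Int.floor_le ((M - b) / P)
    have e2 := Int.lt_floor_add_one ((M + X - b) / P)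
    have e3 : (M + X - b) / P = (M - b) / P + X / P := by
      field_simp
      ring
    linarith
  have hBA2 : (B' : ℝ) - A' ≤ X / (P : ℝ) + 1 := by
    have e1 := Int.floor_le ((M + X - b) / P)
    have e2 := Int.lt_floor_add_one ((M - b) / P)
    have e3 : (M + X - b) / P = (M - b) / P + X / P := by
      field_simp
      ring
    linarith
  have hlt0 : ∀ p : ℕ, w < p → ∀ j : ℕ, ∀ k ≤ ⌊F⌋₊, ∀ l ≤ ⌊F⌋₊,
      |(((j * q + l : ℕ) : ℤ)) - ((j * q + k : ℕ) : ℤ)| < p := by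
    intro p hp j k hk l hl
    have h3 : q < p := by
      have : ((q : ℕ) : ℝ) < p := by linarith
      exact_mod_cast this
    rw [abs_lt]
    constructor <;> omega
  have hlt : ∀ p : ℕ, y₀ < p → ∀ j < J, ∀ j' < J, ∀ k ≤ ⌊F⌋₊, ∀ l ≤ ⌊F⌋₊,
      |(((j' * q + l : ℕ) : ℤ)) - ((j * q + k : ℕ) : ℤ)| < p := by
    intro p hp j hj j' hj' k hk l hl
    have h1 : j * q + k < J * q := by
      calc j * q + k < j * q + q := by omega
        _ = (j + 1) * q := by ring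
        _ ≤ J * q := Nat.mul_le_mul_right q hj
    have h2 : j' * q + l < J * q := by
      calc j' * q + l < j' * q + q := by omega
        _ = (j' + 1) * q := by ring
        _ ≤ J * q := Nat.mul_le_mul_right q hj'
    have h3 : J * q < p := by
      have : ((J * q : ℕ) : ℝ) < p := by push_cast; linarith
      exact_mod_cast this
    rw [abs_lt]
    constructor <;> omega
  have hcount := hcov G (fun j => U j) (by
      intro j hj
      rw [hG, Finset.mem_filter] at hj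
      rw [Fintype.card_coe]
      exact hj.2)
    (fun j p k => -((b : ℤ) + ((j * q + (k : ℕ) : ℕ) : ℤ)) * ip p) (by
      intro p hp hp1 j hj k l hkl
      have h1 := hip p hp (hndvdP p hp hp1)
      have hjJ := Finset.mem_range.1 (Finset.mem_filter.1 hj).1
      have hk := mem_Icc.1 (mem_filter.1 k.2).1
      have hl := mem_Icc.1 (mem_filter.1 l.2).1
      apply res_ne (ip p) h1
      · intro he
        apply hkl
        apply Subtype.ext
        have : j * q + (k:ℕ) = j * q + (l:ℕ) := by exact_mod_cast he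
        omega
      · exact hlt0 p hp1 j k hk.2 l hl.2) (by
      intro p hp hp1 hp0 j hj j' hj' hjj k l
      have h1 := hip p hp (hndvdP p hp hp1)
      have hjJ := Finset.mem_range.1 (Finset.mem_filter.1 hj).1
      have hjJ' := Finset.mem_range.1 (Finset.mem_filter.1 hj').1
      have hk := mem_Icc.1 (mem_filter.1 k.2).1
      have hl := mem_Icc.1 (mem_filter.1 l.2).1
      apply res_ne (ip p) h1
      · intro he
        have h2 : j * q + (k:ℕ) = j' * q + (l:ℕ) := by exact_mod_cast he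
        rcases Nat.lt_or_gt_of_ne hjj with h3 | h3
        · have h4 : (j + 1) * q ≤ j' * q := Nat.mul_le_mul_right q h3
          have h5 : (j + 1) * q = j * q + q := by ring
          omega
        · have h4 : (j' + 1) * q ≤ j * q := Nat.mul_le_mul_right q h3
          have h5 : (j' + 1) * q = j' * q + q := by ring
          omega
      · exact hlt p hp0 j hjJ j' hjJ' k hk.2 l hl.2) (by
      intro j hj j' hj' hjj S hS
      have hjJ := Finset.mem_range.1 (Finset.mem_filter.1 hj).1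
      have hjJ' := Finset.mem_range.1 (Finset.mem_filter.1 hj').1
      refine (coll7 J q j j' ⌊F⌋₊ hqF hjJ hjJ' hjj R hR (by push_cast; exact hJw.trans hy₀) S
        ?_).trans hNc
      intro p hp
      obtain ⟨hpp, hp1, k, l, hkl⟩ := hS p hp
      have hk := mem_Icc.1 (mem_filter.1 k.2).1
      have hl := mem_Icc.1 (mem_filter.1 l.2).1
      refine ⟨hpp, k, l, hk.2, hl.2, ?_⟩
      exact res_dvd7 (ip p) (hip p hpp (hndvdP p hpp hp1)) b _ _ hkl)
    hgood A' B' (hlen.trans hBA)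
  set S : Finset ℤ := (Ioc A' B').filter (fun a : ℤ => ∀ j ∈ G, ¬ ∀ k : U j,
      ∃ p : ℕ, p.Prime ∧ w < p ∧ (p : ℝ) ≤ y₁ ∧
        (p : ℤ) ∣ a - -((b : ℤ) + ((j * q + (k : ℕ) : ℕ) : ℤ)) * ip p) with hS
  have hsub : (Ioc ⌊M⌋ ⌊M + X⌋).filter (fun n : ℤ => ¬ LongRun F y₂ H n ∧
      ((P : ℕ) : ℤ) ∣ n - b) ⊆ S.image (fun m : ℤ => (b : ℤ) + P * m) := by
    intro n hn
    rw [Finset.mem_filter, Finset.mem_Ioc] at hn
    obtain ⟨⟨hn1, hn2⟩, hn3, m, hm⟩ := hn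
    have hnm : n = b + P * m := by linarith
    rw [Finset.mem_image]
    refine ⟨m, ?_, hnm.symm⟩
    have hnr : (n:ℝ) = b + P * m := by exact_mod_cast hnm
    rw [Int.floor_lt] at hn1
    rw [Int.le_floor] at hn2
    rw [hS, Finset.mem_filter, Finset.mem_Ioc]
    refine ⟨⟨?_, ?_⟩, ?_⟩
    · rw [hA', Int.floor_lt, div_lt_iff₀ hPr]
      linarith
    · rw [hB', Int.le_floor, le_div_iff₀ hPr]
      linarith
    · intro j hj hk
      apply hn3
      have hjJ := Finset.mem_range.1 (Finset.mem_filter.1 hj).1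
      refine ⟨n + ((j * q : ℕ) : ℤ), ?_, ?_, ?_⟩
      · have : (0:ℤ) ≤ ((j * q : ℕ) : ℤ) := Int.natCast_nonneg _
        linarith
      · have h1 : ((j:ℝ) + 1) * q ≤ J * q := by
          have h2 : (j:ℝ) + 1 ≤ J := by exact_mod_cast hjJ
          exact mul_le_mul_of_nonneg_right h2 (Nat.cast_nonneg q)
        push_cast
        linarith
      · intro k hk1 hkL
        have hkN : k ≤ ⌊F⌋₊ := Nat.le_floor hkL
        by_cases hkU : k ∈ U j
        · obtain ⟨p, hp, hp1, hp2, hp3⟩ := hk ⟨k, hkU⟩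
          refine ⟨p, hp, hp2.trans hy, ?_⟩
          have h1 := hip p hp (hndvdP p hp hp1)
          have h3 := hp3.mul_left (P : ℤ)
          have h4 := h1.mul_left ((b : ℤ) + ((j * q + k : ℕ) : ℤ))
          have h5 := dvd_sub h3 h4
          have h6 : (P : ℤ) * (m - -((b : ℤ) + ((j * q + k : ℕ) : ℤ)) * ip p) -
              ((b : ℤ) + ((j * q + k : ℕ) : ℤ)) * ((P : ℤ) * ip p - 1) =
              (n + ((j * q : ℕ) : ℤ)) + k := by
            rw [hnm]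
            push_cast
            ring
          have h7 : (p:ℤ) ∣ (P : ℤ) * (m - -((b : ℤ) + ((j * q + k : ℕ) : ℤ)) * ip p) -
              ((b : ℤ) + ((j * q + k : ℕ) : ℤ)) * ((P : ℤ) * ip p - 1) := h5
          rw [h6] at h7
          exact h7
        · have hkU' : ¬ P.Coprime (b + j * q + k) := fun h =>
            hkU (mem_filter.2 ⟨mem_Icc.2 ⟨hk1, hkN⟩, h⟩)
          rw [Nat.Prime.not_coprime_iff_dvd] at hkU'
          obtain ⟨p, hp, hp1, hp2⟩ := hkU'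
          have hpx : (p : ℝ) ≤ x := (hfloor p).1 ((hp.dvd_primorial_iff).1 hp1)
          refine ⟨p, hp, hpx.trans hxy, ?_⟩
          have h3 : (p : ℤ) ∣ (P : ℤ) * m := Dvd.dvd.mul_right (by exact_mod_cast hp1) _
          have h4 : (p : ℤ) ∣ ((b + j * q + k : ℕ) : ℤ) := by exact_mod_cast hp2
          have h5 : (n + ((j * q : ℕ) : ℤ)) + k = ((b + j * q + k : ℕ) : ℤ) + P * m := by
            rw [hnm]
            push_cast
            ring
          rw [h5]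
          exact dvd_add h4 h3
  have hcard : (((Ioc ⌊M⌋ ⌊M + X⌋).filter (fun n : ℤ => ¬ LongRun F y₂ H n ∧
      ((P : ℕ) : ℤ) ∣ n - b)).card : ℝ) ≤ S.card := by
    have h1 := (Finset.card_le_card hsub).trans Finset.card_image_le
    exact_mod_cast h1
  refine hcard.trans (hcount.trans ?_)
  exact mul_le_mul_of_nonneg_left hBA2 (by positivity)

end Pool.Agent.Y831.RC
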