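import Pool.Agent.Y831.RC7.Joint7

set_option autoImplicit false
set_option linter.unusedSectionVars false
set_option linter.unusedVariables false

/-! # Two windows with collisions: the second moment -/

namespace Pool.Agent.Y831.RC

open Finset Pool.Agent.H256R2.SC

open scoped Classical

variable {n n₁ n₂ : ℕ} {κ κ' : Type} [Fintype κ] [DecidableEq κ] [Fintype κ'] [DecidableEq κ']

theorem rho_anti7 {g g' : Fin n → ℝ} (hgg : ∀ i, g i ≤ g' i) (a : ℕ) (u : ℝ) (hau : (a:ℝ) ≤ u)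
    (hg' : ∀ i, 0 ≤ g' i) (hu : ∀ i, u * g' i ≤ 1) : rho g' a ≤ rho g a := by
  unfold rho
  apply Finset.prod_le_prod
  · intro i _
    have := mul_le_mul_of_nonneg_right hau (hg' i)
    linarith [hu i]
  · intro i _
    have := mul_le_mul_of_nonneg_left (hgg i) (Nat.cast_nonneg a : (0:ℝ) ≤ a)
    linarith

/-- the second moment of two windows -/
theorem pair_upper7 {p g₂ : Fin n₂ → ℝ} {h : Finset (Fin n₂) → ℝ} {z K v₀ : ℝ}
    (H : HypS p g₂ h z K v₀) {g₁ : Fin n₁ → ℝ} (hg₁ : ∀ i, 0 ≤ g₁ i) (u₀ : ℝ) (hu₀ : 0 ≤ u₀)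
    (hg₁u : ∀ i, u₀ * g₁ i ≤ 1 / 16) (bl : Fin n₁ → ℕ) (B : ℕ) (M : ℕ → ℕ) {m τ : ℝ}
    (hτ0 : 0 ≤ τ) (tm : Fin n₁ → κ' → κ ⊕ κ') (htm : ∀ i, Function.Injective (tm i))
    (t cc : Fin n₁ → ℝ) (ht0 : ∀ i, 0 ≤ t i) (ht4 : ∀ i, u₀ * (g₁ i * (1 + t i)) ≤ 1 / 2)
    (htc : ∀ i, (tm i = Sum.inr ∧ t i = 4 * (u₀ * g₁ i) ∧ cc i = 1 + 16 * (u₀ * g₁ i) ^ 2) ∨
      (0 ≤ t i ∧ 1 ≤ (1 + t i) ^ 2 * g₁ i ∧ u₀ * (g₁ i * (1 + t i)) ≤ 1 / 4 ∧
        cc i = (1 + 4 * (u₀ * (g₁ i * (1 + t i)))) ^ 2)) (Cc : ℝ) (hCc : ∏ i, cc i ≤ Cc)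
    (HB : BHyp (fun i => g₁ i * (1 + t i)) (fun k : κ => BHk bl B M k) m τ)
    (HB' : BHyp (fun i => g₁ i * (1 + t i)) (fun k : κ' => BHk bl B M k) m τ) (Q δ S₂ : ℝ)
    (hu : (Fintype.card κ : ℝ) ≤ u₀) (hu' : (Fintype.card κ' : ℝ) ≤ u₀)
    (hug : ∀ i, 2 * u₀ * g₂ i ≤ 1 / 2) (hS₂ : ∑ i, (g₂ i) ^ 2 ≤ S₂)
    (hδ : ∀ D : Col n₂ κ, yT p h Q D ≠ 0 → 2 * ∑ i with D i ≠ none, g₂ i ≤ δ)
    (hδ' : ∀ D : Col n₂ κ', yT p h Q D ≠ 0 → 2 * ∑ i with D i ≠ none, g₂ i ≤ δ)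
    (r : ℕ) (hr : ∀ D : Col n₂ κ, yT p h Q D ≠ 0 → (cols D).card ≤ r)
    (hr' : ∀ D : Col n₂ κ', yT p h Q D ≠ 0 → (cols D).card ≤ r) (hrm : (r:ℝ) ≤ m) :
    EE g₁ (fun X₁ : Col n₁ (κ ⊕ κ') => EE g₂ (fun X₂ : Col n₂ (κ ⊕ κ') =>
      (V5 g₂ (yT p h Q) (fun k => BHk bl B M k) (lc X₁) (lc X₂)) ^ 2 *
      (V5 g₂ (yT p h Q) (fun k => BHk bl B M k) (rcm tm X₁) (rc X₂)) ^ 2)) ≤
      (Cc * (1 + τ) ^ 2) * (Real.exp (12 * (u₀ ^ 2 * S₂) + 12 * (u₀ * δ))) ^ 2 *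
      (Zw (om g₁ : Col n₂ κ → ℝ) g₂ h * Zw (om g₁ : Col n₂ κ' → ℝ) g₂ h) := by
  have hg0 : ∀ i, 0 ≤ g₂ i := fun i => (H.g0 i).le
  have hsum1 : ((Fintype.card κ : ℝ) + Fintype.card κ') ≤ 2 * u₀ := by linarith
  have hw₁ : ∀ i (c : Option (κ ⊕ κ')), 0 ≤ wt (g₁ i) c := fun i c => by
    apply wt_nonneg (hg₁ i)
    rw [card_sum_real]
    have := mul_le_mul_of_nonneg_right hsum1 (hg₁ i)
    linarith [hg₁u i]
  have hcc1 : ∀ i, 0 ≤ cc i := by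
    intro i
    rcases htc i with ⟨_, _, h3⟩ | ⟨_, _, _, h3⟩
    · rw [h3]; positivity
    · rw [h3]; positivity
  have hCc0 : 0 ≤ Cc := (Finset.prod_nonneg fun i _ => hcc1 i).trans hCc
  have hG₁0 : ∀ i, 0 ≤ g₁ i * (1 + t i) := fun i => mul_nonneg (hg₁ i) (by linarith [ht0 i])
  have hGG : ∀ i, g₁ i ≤ g₁ i * (1 + t i) := fun i => by
    have := mul_nonneg (hg₁ i) (ht0 i)
    linarith
  set E₀ : ℝ := Real.exp (12 * (u₀ ^ 2 * S₂) + 12 * (u₀ * δ)) with hE₀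
  have hE₀0 : 0 < E₀ := Real.exp_pos _
  have hu1 : ∀ i, u₀ * g₂ i ≤ 1 := fun i => by
    have := mul_nonneg hu₀ (hg0 i)
    linarith [hug i]
  -- the second block
  have h1 : ∀ X₁ : Col n₁ (κ ⊕ κ'), EE g₂ (fun X₂ : Col n₂ (κ ⊕ κ') =>
      (V5 g₂ (yT p h Q) (fun k => BHk bl B M k) (lc X₁) (lc X₂)) ^ 2 *
      (V5 g₂ (yT p h Q) (fun k => BHk bl B M k) (rcm tm X₁) (rc X₂)) ^ 2) ≤
      E₀ ^ 2 * ∑ D : Col n₂ κ, ∑ D' : Col n₂ κ', ((nu g₂ D * (yT p h Q D) ^ 2) *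
        (nu g₂ D' * (yT p h Q D') ^ 2)) * ((∏ k ∈ cols D, (BHk bl B M k (lc X₁)) ^ 2) *
        ∏ k ∈ cols D', (BHk bl B M k (rcm tm X₁)) ^ 2) := by
    intro X₁
    have e1 := EE_couple (κ := κ) (κ' := κ') g₂ (fun i => 4 * (u₀ * g₂ i)) hg0 (by
      intro i
      have := mul_le_mul_of_nonneg_right hsum1 (hg0 i)
      linarith [hug i]) (by
      intro i
      have := mul_le_mul_of_nonneg_right hsum1 (hg0 i)
      linarith)
      (fun x => (V5 g₂ (yT p h Q) (fun k => BHk bl B M k) (lc X₁) x) ^ 2)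
      (fun x => (V5 g₂ (yT p h Q) (fun k => BHk bl B M k) (rcm tm X₁) x) ^ 2)
      (fun x => sq_nonneg _) (fun x => sq_nonneg _)
    refine e1.trans ?_
    have e2 := all_upper (κ := κ) g₂ hg0 u₀ δ S₂ hu₀ hu hu1 hS₂
      (fun D => yT p h Q D * ∏ k ∈ cols D, BHk bl B M k (lc X₁))
      (fun D hD => hδ D (left_ne_zero_of_mul hD))
    have e3 := all_upper (κ := κ') g₂ hg0 u₀ δ S₂ hu₀ hu' hu1 hS₂
      (fun D => yT p h Q D * ∏ k ∈ cols D, BHk bl B M k (rcm tm X₁))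
      (fun D hD => hδ' D (left_ne_zero_of_mul hD))
    rw [V5_sum g₂ (yT p h Q) (fun k => BHk bl B M k) (lc X₁)] at e2
    rw [V5_sum g₂ (yT p h Q) (fun k => BHk bl B M k) (rcm tm X₁)] at e3
    have e4 : 0 ≤ EE g₂ (fun x : Col n₂ κ' => (∏ i, if x i ≠ none then 1 + 4 * (u₀ * g₂ i) else 1) *
        (V5 g₂ (yT p h Q) (fun k => BHk bl B M k) (rcm tm X₁) x) ^ 2) := by
      unfold EE
      apply Finset.sum_nonneg
      intro x _
      apply mul_nonneg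
      · apply Finset.prod_nonneg
        intro i _
        apply wt_nonneg (hg0 i)
        have := mul_le_mul_of_nonneg_right hu' (hg0 i)
        linarith [hu1 i]
      · apply mul_nonneg _ (sq_nonneg _)
        apply Finset.prod_nonneg
        intro i _
        have := mul_nonneg hu₀ (hg0 i)
        split_ifs <;> linarith
    refine (mul_le_mul e2 e3 e4 ?_).trans (le_of_eq ?_)
    · apply mul_nonneg hE₀0.le
      apply Finset.sum_nonneg
      intro D _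
      apply mul_nonneg (mul_nonneg (E_nu_nonneg hg0 D) (sq_nonneg _))
      exact Finset.prod_nonneg fun k _ => sq_nonneg _
    · rw [mul_mul_mul_comm, ← sq, Finset.sum_mul_sum]
      congr 1
      refine Finset.sum_congr rfl fun D _ => Finset.sum_congr rfl fun D' _ => ?_
      ring
  refine (EE_mono hw₁ h1).trans ?_
  rw [EE_smul, EE_sum]
  have h2 : ∀ D : Col n₂ κ, EE g₁ (fun X₁ : Col n₁ (κ ⊕ κ') => ∑ D' : Col n₂ κ',
      ((nu g₂ D * (yT p h Q D) ^ 2) *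
        (nu g₂ D' * (yT p h Q D') ^ 2)) * ((∏ k ∈ cols D, (BHk bl B M k (lc X₁)) ^ 2) *
        ∏ k ∈ cols D', (BHk bl B M k (rcm tm X₁)) ^ 2)) ≤
      ∑ D' : Col n₂ κ', (Cc * (1 + τ) ^ 2) * ((om g₁ D * ((yy h D) ^ 2 * nu g₂ D)) *
        (om g₁ D' * ((yy h D') ^ 2 * nu g₂ D'))) := by
    intro D
    rw [EE_sum]
    apply Finset.sum_le_sum
    intro D' _
    rw [EE_smul]
    have hν := E_nu_nonneg hg0 D
    have hν' := E_nu_nonneg hg0 D'
    have hg₁κ : ∀ i, (Fintype.card κ : ℝ) * g₁ i ≤ 1 / 2 := fun i => by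
      have e1 := mul_le_mul_of_nonneg_right hu (hg₁ i)
      have e2 := mul_nonneg hu₀ (hg₁ i)
      linarith [hg₁u i]
    have hg₁κ' : ∀ i, (Fintype.card κ' : ℝ) * g₁ i ≤ 1 / 2 := fun i => by
      have e1 := mul_le_mul_of_nonneg_right hu' (hg₁ i)
      have e2 := mul_nonneg hu₀ (hg₁ i)
      linarith [hg₁u i]
    have hom : 0 ≤ om g₁ D := om_nonneg hg₁ hg₁κ D
    have hom' : 0 ≤ om g₁ D' := om_nonneg hg₁ hg₁κ' D'
    have hτ1 : 0 ≤ Cc * (1 + τ) ^ 2 := mul_nonneg hCc0 (sq_nonneg _)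
    by_cases h0 : yT p h Q D = 0
    · rw [h0]
      have e1 : 0 ≤ (om g₁ D * ((yy h D) ^ 2 * nu g₂ D)) *
        (om g₁ D' * ((yy h D') ^ 2 * nu g₂ D')) := by positivity
      have e2 := mul_nonneg hτ1 e1
      simpa using e2
    by_cases h0' : yT p h Q D' = 0
    · rw [h0']
      have e1 : 0 ≤ (om g₁ D * ((yy h D) ^ 2 * nu g₂ D)) *
        (om g₁ D' * ((yy h D') ^ 2 * nu g₂ D')) := by positivity
      have e2 := mul_nonneg hτ1 e1
      simpa using e2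
    have h3 : ((cols D).card : ℝ) ≤ r := by exact_mod_cast hr D h0
    have h4 : ((cols D').card : ℝ) ≤ r := by exact_mod_cast hr' D' h0'
    have h5 : ((cols D).card : ℝ) ≤ Fintype.card κ := by exact_mod_cast Finset.card_le_univ _
    have h6 : ((cols D').card : ℝ) ≤ Fintype.card κ' := by exact_mod_cast Finset.card_le_univ _
    have f1 := HB.up (cols D) (h3.trans hrm) (fun _ => 2) (fun _ => ⟨by norm_num, by norm_num⟩)
    have f2 := HB'.up (cols D') (h4.trans hrm) (fun _ => 2) (fun _ => ⟨by norm_num, by norm_num⟩)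
    have f3 : rho (fun i => g₁ i * (1 + t i)) (cols D).card ≤ om g₁ D :=
      rho_anti7 hGG _ u₀ (h5.trans hu) hG₁0 (fun i => by linarith [ht4 i])
    have f4 : rho (fun i => g₁ i * (1 + t i)) (cols D').card ≤ om g₁ D' :=
      rho_anti7 hGG _ u₀ (h6.trans hu') hG₁0 (fun i => by linarith [ht4 i])
    have hτ2 : 0 ≤ 1 + τ := by linarith
    have f5 := f1.trans (mul_le_mul_of_nonneg_left f3 hτ2)
    have f6 := f2.trans (mul_le_mul_of_nonneg_left f4 hτ2)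
    have hwG : ∀ i (c : Option κ'), 0 ≤ wt (g₁ i * (1 + t i)) c := fun i c => by
      apply wt_nonneg (hG₁0 i)
      have := mul_le_mul_of_nonneg_right hu' (hG₁0 i)
      linarith [ht4 i]
    have f7 : 0 ≤ EE (fun i => g₁ i * (1 + t i)) (fun x : Col n₁ κ' =>
        ∏ k ∈ cols D', (BHk bl B M k x) ^ 2) := by
      unfold EE
      apply Finset.sum_nonneg
      intro x _
      exact mul_nonneg (Finset.prod_nonneg fun i _ => hwG i _)
        (Finset.prod_nonneg fun k _ => sq_nonneg _)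
    have f8 := EE_couple7 (κ := κ) (κ' := κ') g₁ t cc u₀ hg₁ hu₀ hu hu' hg₁u tm htm htc
      (fun x => ∏ k ∈ cols D, (BHk bl B M k x) ^ 2) (fun x => ∏ k ∈ cols D', (BHk bl B M k x) ^ 2)
      (fun x => Finset.prod_nonneg fun k _ => sq_nonneg _)
      (fun x => Finset.prod_nonneg fun k _ => sq_nonneg _)
    have e3 : EE g₁ (fun X : Col n₁ (κ ⊕ κ') => (∏ k ∈ cols D, (BHk bl B M k (lc X)) ^ 2) *
        ∏ k ∈ cols D', (BHk bl B M k (rcm tm X)) ^ 2) ≤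
        (Cc * (1 + τ) ^ 2) * (om g₁ D * om g₁ D') := by
      refine f8.trans ?_
      have f9 := mul_le_mul f5 f6 f7 (by positivity)
      have f10 : 0 ≤ ((1 + τ) * om g₁ D) * ((1 + τ) * om g₁ D') := by positivity
      have f11 : 0 ≤ ∏ i, cc i := Finset.prod_nonneg fun i _ => hcc1 i
      refine (mul_le_mul_of_nonneg_left f9 f11).trans ?_
      refine (mul_le_mul_of_nonneg_right hCc f10).trans (le_of_eq ?_)
      ring
    have e4 := yT_sq_le (p := p) (h := h) Q D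
    have e5 := yT_sq_le (p := p) (h := h) Q D'
    have e6 : 0 ≤ (nu g₂ D * (yT p h Q D) ^ 2) * (nu g₂ D' * (yT p h Q D') ^ 2) := by positivity
    refine (mul_le_mul_of_nonneg_left e3 e6).trans ?_
    have e7 : (nu g₂ D * (yT p h Q D) ^ 2) * (nu g₂ D' * (yT p h Q D') ^ 2) ≤
        (nu g₂ D * (yy h D) ^ 2) * (nu g₂ D' * (yy h D') ^ 2) := by
      apply mul_le_mul
      · exact mul_le_mul_of_nonneg_left e4 hν
      · exact mul_le_mul_of_nonneg_left e5 hν'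
      · positivity
      · positivity
    have e8 : 0 ≤ (Cc * (1 + τ) ^ 2) * (om g₁ D * om g₁ D') := by positivity
    refine (mul_le_mul_of_nonneg_right e7 e8).trans (le_of_eq ?_)
    ring
  have h3 := Finset.sum_le_sum (s := (univ : Finset (Col n₂ κ))) (fun D _ => h2 D)
  have h4 := mul_le_mul_of_nonneg_left h3 (sq_nonneg E₀)
  refine h4.trans (le_of_eq ?_)
  unfold Zw
  rw [Finset.sum_mul_sum]
  simp only [← Finset.mul_sum]
  ring

end Pool.Agent.Y831.RC
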