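import Pool.Agent.Y831.RC7.Blk7

set_option autoImplicit false
set_option linter.unusedSectionVars false
set_option linter.unusedVariables false

/-! # Many windows with collisions: the second moment method -/

namespace Pool.Agent.Y831.RC

open Finset Pool.Agent.H256R2.SC

open scoped Classical

theorem zmod_iff (p : ℕ) (a b : ℤ) : ((p:ℤ) ∣ a - b) ↔ ((a : ZMod p) = (b : ZMod p)) := by
  rw [← ZMod.intCast_zmod_eq_zero_iff_dvd, Int.cast_sub, sub_eq_zero]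

/-- separating the colliding classes -/
theorem exists_joint {κ κ' : Type} [Fintype κ] [Fintype κ'] (p : ℕ) (hp : p.Prime) (r : κ → ℤ)
    (r' : κ' → ℤ) (hr : ∀ k l, k ≠ l → ¬ ((p:ℤ) ∣ r k - r l))
    (hr' : ∀ k l, k ≠ l → ¬ ((p:ℤ) ∣ r' k - r' l))
    (hcard : Fintype.card κ + 2 * Fintype.card κ' ≤ p) :
    ∃ (τ : κ' → κ ⊕ κ') (R : κ ⊕ κ' → ℤ), Function.Injective τ ∧
      (∀ k l, k ≠ l → ¬ ((p:ℤ) ∣ R k - R l)) ∧ (∀ k, R (Sum.inl k) = r k) ∧
      (∀ l, (p:ℤ) ∣ R (τ l) - r' l) ∧ ((∀ k l, ¬ ((p:ℤ) ∣ r k - r' l)) → τ = Sum.inr) := by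
  haveI : Fact p.Prime := ⟨hp⟩
  haveI : NeZero p := ⟨hp.ne_zero⟩
  set S : Finset (ZMod p) := univ.image (fun k : κ => ((r k : ℤ) : ZMod p)) ∪
    univ.image (fun l : κ' => ((r' l : ℤ) : ZMod p)) with hS
  have hScard : S.card ≤ Fintype.card κ + Fintype.card κ' := by
    refine (Finset.card_union_le _ _).trans ?_
    exact add_le_add (Finset.card_image_le.trans (le_of_eq Finset.card_univ))
      (Finset.card_image_le.trans (le_of_eq Finset.card_univ))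
  have hcompl : Fintype.card κ' ≤ Fintype.card (Sᶜ : Finset (ZMod p)) := by
    rw [Fintype.card_coe, Finset.card_compl, ZMod.card]
    omega
  obtain ⟨e⟩ := Function.Embedding.nonempty_of_card_le hcompl
  set dm : κ' → ℤ := fun l => (((e l : ZMod p).val : ℕ) : ℤ) with hdm
  have hdmc : ∀ l, ((dm l : ℤ) : ZMod p) = (e l : ZMod p) := by
    intro l
    simp only [hdm, Int.cast_natCast, ZMod.natCast_zmod_val]
  have hdmS : ∀ l, ((dm l : ℤ) : ZMod p) ∉ S := by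
    intro l
    rw [hdmc]
    exact Finset.mem_compl.1 (e l).2
  have hrS : ∀ k, ((r k : ℤ) : ZMod p) ∈ S := fun k => by
    rw [hS, Finset.mem_union]
    exact Or.inl (Finset.mem_image_of_mem _ (Finset.mem_univ k))
  have hrS' : ∀ l, ((r' l : ℤ) : ZMod p) ∈ S := fun l => by
    rw [hS, Finset.mem_union]
    exact Or.inr (Finset.mem_image_of_mem _ (Finset.mem_univ l))
  set coll : κ' → Prop := fun l => ∃ k, (p:ℤ) ∣ r k - r' l with hcoll
  set τ : κ' → κ ⊕ κ' := fun l => if h : coll l then Sum.inl h.choose else Sum.inr l with hτ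
  set R : κ ⊕ κ' → ℤ := Sum.elim r (fun l => if coll l then dm l else r' l) with hR
  refine ⟨τ, R, ?_, ?_, fun k => rfl, ?_, ?_⟩
  · intro l l' hll
    simp only [hτ] at hll
    by_cases h1 : coll l
    · by_cases h2 : coll l'
      · rw [dif_pos h1, dif_pos h2] at hll
        by_contra hne
        apply hr' l l' hne
        have e1 := h1.choose_spec
        have e2 := h2.choose_spec
        rw [← Sum.inl.inj hll] at e2
        have e3 := dvd_sub e2 e1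
        have e4 : r h1.choose - r' l' - (r h1.choose - r' l) = r' l - r' l' := by ring
        rwa [e4] at e3
      · rw [dif_pos h1, dif_neg h2] at hll
        exact absurd hll (by simp)
    · by_cases h2 : coll l'
      · rw [dif_neg h1, dif_pos h2] at hll
        exact absurd hll (by simp)
      · rw [dif_neg h1, dif_neg h2] at hll
        exact Sum.inr.inj hll
  · intro k l hkl
    rcases k with k | k <;> rcases l with l | l
    · exact hr k l (fun h => hkl (by rw [h]))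
    · simp only [hR, Sum.elim_inl, Sum.elim_inr]
      split_ifs with h1
      · rw [zmod_iff]
        intro h2
        apply hdmS l
        rw [← h2]
        exact hrS k
      · intro h2
        exact h1 ⟨k, h2⟩
    · simp only [hR, Sum.elim_inl, Sum.elim_inr]
      split_ifs with h1
      · rw [zmod_iff]
        intro h2
        apply hdmS k
        rw [h2]
        exact hrS l
      · intro h2
        apply h1
        refine ⟨l, ?_⟩
        have := (dvd_neg (α := ℤ)).2 h2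
        rwa [neg_sub] at this
    · have hkl' : k ≠ l := fun h => hkl (by rw [h])
      simp only [hR, Sum.elim_inr]
      split_ifs with h1 h2 h2
      · rw [zmod_iff, hdmc, hdmc]
        intro h3
        exact hkl' (e.injective (Subtype.ext h3))
      · rw [zmod_iff]
        intro h3
        apply hdmS k
        rw [h3]
        exact hrS' l
      · rw [zmod_iff]
        intro h3
        apply hdmS l
        rw [← h3]
        exact hrS' k
      · exact hr' k l hkl'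
  · intro l
    simp only [hτ]
    by_cases h1 : coll l
    · rw [dif_pos h1]
      exact h1.choose_spec
    · rw [dif_neg h1]
      simp only [hR, Sum.elim_inr]
      rw [if_neg h1, sub_self]
      exact dvd_zero _
  · intro h
    funext l
    simp only [hτ]
    rw [dif_neg]
    rintro ⟨k, hk⟩
    exact h k l hk

variable {PP₁ PP₂ : Finset ℕ}

section
variable {κ κ' : Type} [Fintype κ] [DecidableEq κ] [Fintype κ'] [DecidableEq κ']

theorem colr_lc7 {PP : Finset ℕ} (res : ℕ → κ → ℤ) (R : ℕ → κ ⊕ κ' → ℤ)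
    (hi : ∀ p ∈ PP, ∀ k l, k ≠ l → ¬ ((p : ℤ) ∣ R p k - R p l))
    (hR : ∀ p ∈ PP, ∀ k, R p (Sum.inl k) = res p k) (a : ℤ) (i : Fin PP.card) :
    lc1 (colr PP R a i) = colr PP res a i := by
  apply Option.ext
  intro k
  have h0 := hR _ (emb_mem PP i)
  have h1 := colr_eq (PP := PP) (res := R) hi a i (Sum.inl k)
  have h2 := colr_eq (PP := PP) (res := res) (fun p hp k l hkl => by
    have := hi p hp (Sum.inl k) (Sum.inl l) (fun h => hkl (Sum.inl.inj h))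
    rwa [hR p hp, hR p hp] at this) a i k
  rw [h0] at h1
  rw [lc1_iff, h1, h2]

theorem colr_rc7 {PP : Finset ℕ} (res' : ℕ → κ' → ℤ) (R : ℕ → κ ⊕ κ' → ℤ)
    (τ : ℕ → κ' → κ ⊕ κ')
    (hi : ∀ p ∈ PP, ∀ k l, k ≠ l → ¬ ((p : ℤ) ∣ R p k - R p l))
    (hi' : ∀ p ∈ PP, ∀ k l, k ≠ l → ¬ ((p : ℤ) ∣ res' p k - res' p l))
    (hR : ∀ p ∈ PP, ∀ l, (p:ℤ) ∣ R p (τ p l) - res' p l) (a : ℤ) (i : Fin PP.card) (l : κ') :
    colr PP R a i = some (τ (emb PP i) l) ↔ colr PP res' a i = some l := by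
  rw [colr_eq (PP := PP) (res := R) hi a i (τ (emb PP i) l),
    colr_eq (PP := PP) (res := res') hi' a i l]
  have h0 := hR _ (emb_mem PP i) l
  constructor
  · intro h
    have h1 := dvd_add h h0
    have h2 : a - R (emb PP i) (τ (emb PP i) l) + (R (emb PP i) (τ (emb PP i) l) -
      res' (emb PP i) l) = a - res' (emb PP i) l := by ring
    rwa [h2] at h1
  · intro h
    have h1 := dvd_sub h h0
    have h2 : a - res' (emb PP i) l - (R (emb PP i) (τ (emb PP i) l) -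
      res' (emb PP i) l) = a - R (emb PP i) (τ (emb PP i) l) := by ring
    rwa [h2] at h1

/-- the collision map on both blocks -/
noncomputable def tmf {n₁ n₂ : ℕ} (tm : Fin n₁ → κ' → κ ⊕ κ') : Fin (n₁ + n₂) → κ' → κ ⊕ κ' :=
  Fin.append tm (fun _ => Sum.inr)

theorem tmf_inj {n₁ n₂ : ℕ} {tm : Fin n₁ → κ' → κ ⊕ κ'}
    (h : ∀ i, Function.Injective (tm i)) (i : Fin (n₁ + n₂)) :
    Function.Injective (tmf (n₂ := n₂) tm i) := by
  unfold tmf
  refine Fin.addCases (fun j => ?_) (fun j => ?_) i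
  · rw [Fin.append_left]; exact h j
  · rw [Fin.append_right]; exact Sum.inr_injective

theorem col2_lc7 (res : ℕ → κ → ℤ) (R : ℕ → κ ⊕ κ' → ℤ)
    (hi : ∀ p ∈ PP₁ ∪ PP₂, ∀ k l, k ≠ l → ¬ ((p : ℤ) ∣ R p k - R p l))
    (hR : ∀ p ∈ PP₁ ∪ PP₂, ∀ k, R p (Sum.inl k) = res p k) (a : ℤ) :
    lc (col2 PP₁ PP₂ R a) = col2 PP₁ PP₂ res a := by
  funext i
  unfold lc col2
  refine Fin.addCases (fun j => ?_) (fun j => ?_) i
  · rw [Fin.append_left, Fin.append_left]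
    exact colr_lc7 res R (fun p hp => hi p (Finset.mem_union_left _ hp))
      (fun p hp => hR p (Finset.mem_union_left _ hp)) a j
  · rw [Fin.append_right, Fin.append_right]
    exact colr_lc7 res R (fun p hp => hi p (Finset.mem_union_right _ hp))
      (fun p hp => hR p (Finset.mem_union_right _ hp)) a j

theorem col2_rc7 (res' : ℕ → κ' → ℤ) (R : ℕ → κ ⊕ κ' → ℤ) (τ : ℕ → κ' → κ ⊕ κ')
    (hτ : ∀ p ∈ PP₁ ∪ PP₂, Function.Injective (τ p)) (hτ2 : ∀ p ∈ PP₂, τ p = Sum.inr)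
    (hi : ∀ p ∈ PP₁ ∪ PP₂, ∀ k l, k ≠ l → ¬ ((p : ℤ) ∣ R p k - R p l))
    (hi' : ∀ p ∈ PP₁ ∪ PP₂, ∀ k l, k ≠ l → ¬ ((p : ℤ) ∣ res' p k - res' p l))
    (hR : ∀ p ∈ PP₁ ∪ PP₂, ∀ l, (p:ℤ) ∣ R p (τ p l) - res' p l) (a : ℤ) :
    rcm (tmf (n₂ := PP₂.card) (fun i : Fin PP₁.card => τ (emb PP₁ i))) (col2 PP₁ PP₂ R a) =
      col2 PP₁ PP₂ res' a := by
  have hinj := tmf_inj (n₂ := PP₂.card) (tm := fun i : Fin PP₁.card => τ (emb PP₁ i))
    (fun i => hτ _ (Finset.mem_union_left _ (emb_mem PP₁ i)))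
  funext i
  apply Option.ext
  intro l
  rw [rcm_iff hinj]
  unfold tmf col2
  refine Fin.addCases (fun j => ?_) (fun j => ?_) i
  · rw [Fin.append_left, Fin.append_left, Fin.append_left]
    exact colr_rc7 res' R τ (fun p hp => hi p (Finset.mem_union_left _ hp))
      (fun p hp => hi' p (Finset.mem_union_left _ hp))
      (fun p hp => hR p (Finset.mem_union_left _ hp)) a j l
  · rw [Fin.append_right, Fin.append_right, Fin.append_right]
    have h1 := colr_rc7 res' R τ (fun p hp => hi p (Finset.mem_union_right _ hp))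
      (fun p hp => hi' p (Finset.mem_union_right _ hp))
      (fun p hp => hR p (Finset.mem_union_right _ hp)) a j l
    rwa [hτ2 _ (emb_mem PP₂ j)] at h1

end

/-- what the sieve weights do, with collisions in the first block -/
structure Good7 (D : Data6 PP₁ PP₂) (u₀ θ Bd L₁ L₂ Nc : ℝ) : Prop where
  prime₁ : ∀ p ∈ PP₁, p.Prime
  prime₂ : ∀ p ∈ PP₂, p.Prime
  disj : Disjoint PP₁ PP₂
  big : ∀ p ∈ PP₁ ∪ PP₂, 3 * u₀ ≤ (p:ℝ)
  Zone : ∀ (κ : Type) [Fintype κ] [DecidableEq κ], (Fintype.card κ : ℝ) ≤ u₀ → 1 ≤ D.Z κ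
  mean : ∀ (κ : Type) [Fintype κ] [DecidableEq κ], (Fintype.card κ : ℝ) ≤ u₀ →
    (1 - θ) * D.Z κ ≤ EE (Fin.append (rcp PP₁) (rcp PP₂))
      (fun x => (D.G κ x) ^ 2 * (1 - D.N κ x))
  lw₁ : ∀ (κ : Type) [Fintype κ] [DecidableEq κ], (Fintype.card κ : ℝ) ≤ u₀ →
    Lw L₁ (fun x => (D.G κ x) ^ 2 * (1 - D.N κ x))
  nn : ∀ (κ : Type) [Fintype κ] [DecidableEq κ] (x : Col (PP₁.card + PP₂.card) κ), 0 ≤ D.N κ x
  pt : ∀ (κ : Type) [Fintype κ] [DecidableEq κ], (Fintype.card κ : ℝ) ≤ u₀ →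
    ∀ x, D.N κ x < 1 → (∀ k, ∃ i, x i = some k) ∧ |D.G κ x| ≤ Bd
  pair : ∀ (κ κ' : Type) [Fintype κ] [DecidableEq κ] [Fintype κ'] [DecidableEq κ'],
    (Fintype.card κ : ℝ) ≤ u₀ → (Fintype.card κ' : ℝ) ≤ u₀ →
    ∀ tm : Fin PP₁.card → κ' → κ ⊕ κ', (∀ i, Function.Injective (tm i)) →
    (((univ.filter (fun i => tm i ≠ Sum.inr)).card : ℝ) ≤ Nc) →
    EE (Fin.append (rcp PP₁) (rcp PP₂)) (fun X : Col (PP₁.card + PP₂.card) (κ ⊕ κ') =>
      (D.G κ (lc X)) ^ 2 * (D.G κ' (rcm (tmf tm) X)) ^ 2) ≤ (1 + θ) * (D.Z κ * D.Z κ')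
  lw₂ : ∀ (κ κ' : Type) [Fintype κ] [DecidableEq κ] [Fintype κ'] [DecidableEq κ'],
    (Fintype.card κ : ℝ) ≤ u₀ → (Fintype.card κ' : ℝ) ≤ u₀ →
    ∀ tm : Fin PP₁.card → κ' → κ ⊕ κ', (∀ i, Function.Injective (tm i)) →
    Lw L₂ (fun X : Col (PP₁.card + PP₂.card) (κ ⊕ κ') =>
      (D.G κ (lc X)) ^ 2 * (D.G κ' (rcm (tmf tm) X)) ^ 2)

theorem Good7.cheb {D : Data6 PP₁ PP₂} {u₀ θ Bd L₁ L₂ Nc : ℝ} (hD : Good7 D u₀ θ Bd L₁ L₂ Nc)
    (hθ : 0 ≤ θ) (hBd : 0 ≤ Bd)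
    {ι : Type} (G : Finset ι) (κ : ι → Type) [∀ j, Fintype (κ j)] [∀ j, DecidableEq (κ j)]
    (hκ : ∀ j ∈ G, (Fintype.card (κ j) : ℝ) ≤ u₀) (res : ∀ j, ℕ → κ j → ℤ)
    (hi : ∀ p ∈ PP₁ ∪ PP₂, ∀ j ∈ G, ∀ k l, k ≠ l → ¬ ((p : ℤ) ∣ res j p k - res j p l))
    (hi2 : ∀ p ∈ PP₂, ∀ j ∈ G, ∀ j' ∈ G, j ≠ j' → ∀ k l,
      ¬ ((p : ℤ) ∣ res j p k - res j' p l))
    (hi1 : ∀ j ∈ G, ∀ j' ∈ G, j ≠ j' → ((PP₁.filter (fun p : ℕ => ∃ k l,
      (p : ℤ) ∣ res j p k - res j' p l)).card : ℝ) ≤ Nc)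
    (A B : ℤ) (hAB : A ≤ B) (hL₁ : L₁ ≤ θ * ((B:ℝ) - A)) (hL₂ : L₂ ≤ θ * ((B:ℝ) - A))
    (hGp : 0 < (G.card : ℝ)) (hG : (Bd ^ 2) ^ 2 ≤ θ * G.card) :
    (((Ioc A B).filter (fun a => ∀ j ∈ G, ¬ ∀ k : κ j, ∃ p ∈ PP₁ ∪ PP₂,
      (p : ℤ) ∣ a - res j p k)).card : ℝ) ≤ 7 * θ * ((B:ℝ) - A) := by
  have hABr : (A:ℝ) ≤ B := by exact_mod_cast hAB
  have hN0 : 0 ≤ (B:ℝ) - A := by linarith
  have hcard : (((Ioc A B).card : ℕ) : ℝ) = (B:ℝ) - A := by
    rw [Int.card_Ioc]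
    have : (((B - A).toNat : ℕ) : ℤ) = B - A := Int.toNat_of_nonneg (by linarith)
    have h2 : (((B - A).toNat : ℕ) : ℝ) = ((B - A : ℤ) : ℝ) := by exact_mod_cast this
    rw [h2]
    push_cast
    ring
  set a : ι → ℤ → ℝ := fun j m =>
    if D.N (κ j) (col2 PP₁ PP₂ (res j) m) < 1 then
      (D.G (κ j) (col2 PP₁ PP₂ (res j) m)) ^ 2 / D.Z (κ j) else 0 with ha
  have h0 : ∀ j ∈ G, ∀ m ∈ Ioc A B, 0 ≤ a j m := by
    intro j hj m _
    have := hD.Zone (κ j) (hκ j hj)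
    simp only [ha]
    split_ifs
    · positivity
    · exact le_rfl
  have hDb : ∀ j ∈ G, ∀ m ∈ Ioc A B, a j m ≤ Bd ^ 2 := by
    intro j hj m _
    have hZ := hD.Zone (κ j) (hκ j hj)
    simp only [ha]
    split_ifs with h
    · have h2 := (hD.pt (κ j) (hκ j hj) _ h).2
      have h3 : (D.G (κ j) (col2 PP₁ PP₂ (res j) m)) ^ 2 ≤ Bd ^ 2 := by
        rw [← sq_abs]
        exact pow_le_pow_left₀ (abs_nonneg _) h2 2
      exact (div_le_self (sq_nonneg _) hZ).trans h3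
    · positivity
  have hU : ∀ j ∈ G, ∀ m, D.G (κ j) (col2 PP₁ PP₂ (res j) m) ^ 2 *
      (1 - D.N (κ j) (col2 PP₁ PP₂ (res j) m)) ≤ D.Z (κ j) * a j m := by
    intro j hj m
    have hZ := hD.Zone (κ j) (hκ j hj)
    have hnn := hD.nn (κ j) (col2 PP₁ PP₂ (res j) m)
    simp only [ha]
    split_ifs with h
    · rw [mul_div_cancel₀ _ (by positivity)]
      have h2 := sq_nonneg (D.G (κ j) (col2 PP₁ PP₂ (res j) m))
      nlinarith
    · rw [mul_zero]
      push Not at h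
      exact mul_nonpos_of_nonneg_of_nonpos (sq_nonneg _) (by linarith)
  have T1 : ∀ j ∈ G, (1 - 2 * θ) * ((B:ℝ) - A) ≤ ∑ m ∈ Ioc A B, a j m := by
    intro j hj
    have hZ := hD.Zone (κ j) (hκ j hj)
    have h1 := transfer_w (Ioc A B) (col2 PP₁ PP₂ (res j)) (Fin.append (rcp PP₁) (rcp PP₂))
      ((B:ℝ) - A) 1 L₁ zero_le_one
      (event_cnt hD.prime₁ hD.prime₂ hD.disj (fun p hp => hi p hp j hj) A B hAB) _
      (hD.lw₁ (κ j) (hκ j hj))
    have h2 := (abs_le.1 h1).1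
    have h3 := mul_le_mul_of_nonneg_left (hD.mean (κ j) (hκ j hj)) hN0
    have h4 := Finset.sum_le_sum (s := Ioc A B) (fun m _ => hU j hj m)
    rw [← Finset.mul_sum] at h4
    have h5 : D.Z (κ j) * ((1 - 2 * θ) * ((B:ℝ) - A)) ≤ D.Z (κ j) * ∑ m ∈ Ioc A B, a j m := by
      have h6 : 0 ≤ θ * ((B:ℝ) - A) := by positivity
      have h7 : θ * ((B:ℝ) - A) ≤ D.Z (κ j) * (θ * ((B:ℝ) - A)) := by nlinarith
      linarith
    exact le_of_mul_le_mul_left h5 (by linarith)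
  have T2 : ∀ j ∈ G, ∀ j' ∈ G, j ≠ j' →
      ∑ m ∈ Ioc A B, a j m * a j' m ≤ (1 + 2 * θ) * ((B:ℝ) - A) := by
    intro j hj j' hj' hjj
    have hZ := hD.Zone (κ j) (hκ j hj)
    have hZ' := hD.Zone (κ j') (hκ j' hj')
    have hprime : ∀ p ∈ PP₁ ∪ PP₂, p.Prime := by
      intro p hp
      rcases Finset.mem_union.1 hp with h | h
      · exact hD.prime₁ p h
      · exact hD.prime₂ p h
    have hex : ∀ p : ℕ, ∃ (τ : κ j' → κ j ⊕ κ j') (R : κ j ⊕ κ j' → ℤ), p ∈ PP₁ ∪ PP₂ →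
        (Function.Injective τ ∧
        (∀ k l, k ≠ l → ¬ ((p:ℤ) ∣ R k - R l)) ∧ (∀ k, R (Sum.inl k) = res j p k) ∧
        (∀ l, (p:ℤ) ∣ R (τ l) - res j' p l) ∧
        ((∀ k l, ¬ ((p:ℤ) ∣ res j p k - res j' p l)) → τ = Sum.inr)) := by
      intro p
      by_cases hp : p ∈ PP₁ ∪ PP₂
      · obtain ⟨τ, R, h⟩ := exists_joint p (hprime p hp) (res j p) (res j' p)
          (hi p hp j hj) (hi p hp j' hj') (by
            have e1 := hD.big p hp
            have e2 := hκ j hj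
            have e3 := hκ j' hj'
            have e4 : (((Fintype.card (κ j) + 2 * Fintype.card (κ j') : ℕ)) : ℝ) ≤ p := by
              push_cast
              linarith
            exact_mod_cast e4)
        exact ⟨τ, R, fun _ => h⟩
      · exact ⟨Sum.inr, fun _ => 0, fun h => absurd h hp⟩
    choose τ R hτR using hex
    have hie : ∀ p ∈ PP₁ ∪ PP₂, ∀ k l, k ≠ l → ¬ ((p : ℤ) ∣ R p k - R p l) :=
      fun p hp => (hτR p hp).2.1
    have hlc := col2_lc7 (PP₁ := PP₁) (PP₂ := PP₂) (res j) R hie (fun p hp => (hτR p hp).2.2.1)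
    have hrc := col2_rc7 (PP₁ := PP₁) (PP₂ := PP₂) (res j') R τ (fun p hp => (hτR p hp).1)
      (fun p hp => (hτR p (Finset.mem_union_right _ hp)).2.2.2.2
        (hi2 p hp j hj j' hj' hjj)) hie (fun p hp => hi p hp j' hj')
      (fun p hp => (hτR p hp).2.2.2.1)
    have htinj : ∀ i : Fin PP₁.card, Function.Injective (τ (emb PP₁ i)) := fun i =>
      (hτR _ (Finset.mem_union_left _ (emb_mem PP₁ i))).1
    have hNc : (((univ.filter (fun i : Fin PP₁.card => τ (emb PP₁ i) ≠ Sum.inr)).card : ℝ)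
        ≤ Nc) := by
      refine le_trans ?_ (hi1 j hj j' hj' hjj)
      have h1 : (univ.filter (fun i : Fin PP₁.card => τ (emb PP₁ i) ≠ Sum.inr)).card ≤
          (PP₁.filter (fun p : ℕ => ∃ k l, (p : ℤ) ∣ res j p k - res j' p l)).card := by
        rw [← Finset.card_map (emb PP₁)]
        apply Finset.card_le_card
        intro p hp
        rw [Finset.mem_map] at hp
        obtain ⟨i, hi', rfl⟩ := hp
        rw [Finset.mem_filter] at hi' ⊢
        refine ⟨emb_mem PP₁ i, ?_⟩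
        by_contra hc
        push Not at hc
        exact hi'.2 ((hτR _ (Finset.mem_union_left _ (emb_mem PP₁ i))).2.2.2.2 hc)
      exact_mod_cast h1
    have h1 := transfer_w (Ioc A B) (col2 PP₁ PP₂ R)
      (Fin.append (rcp PP₁) (rcp PP₂)) ((B:ℝ) - A) 1 L₂ zero_le_one
      (event_cnt hD.prime₁ hD.prime₂ hD.disj hie A B hAB) _
      (hD.lw₂ (κ j) (κ j') (hκ j hj) (hκ j' hj') (fun i => τ (emb PP₁ i)) htinj)
    simp only [hlc, hrc] at h1
    have h2 := (abs_le.1 h1).2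
    have h3 := mul_le_mul_of_nonneg_left (hD.pair (κ j) (κ j') (hκ j hj) (hκ j' hj')
      (fun i => τ (emb PP₁ i)) htinj hNc) hN0
    set ZZ := D.Z (κ j) * D.Z (κ j') with hZZ
    have hZZ1 : 1 ≤ ZZ := by nlinarith
    have h4 : ZZ * ∑ m ∈ Ioc A B, a j m * a j' m ≤
        ∑ m ∈ Ioc A B, D.G (κ j) (col2 PP₁ PP₂ (res j) m) ^ 2 *
          D.G (κ j') (col2 PP₁ PP₂ (res j') m) ^ 2 := by
      rw [Finset.mul_sum]
      apply Finset.sum_le_sum
      intro m _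
      simp only [ha]
      have e1 := sq_nonneg (D.G (κ j) (col2 PP₁ PP₂ (res j) m))
      have e2 := sq_nonneg (D.G (κ j') (col2 PP₁ PP₂ (res j') m))
      split_ifs
      · apply le_of_eq
        rw [hZZ]
        have z1 : D.Z (κ j) ≠ 0 := by positivity
        have z2 : D.Z (κ j') ≠ 0 := by positivity
        field_simp
      · rw [mul_zero, mul_zero]; positivity
      · rw [zero_mul, mul_zero]; positivity
      · rw [zero_mul, mul_zero]; positivity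
    have h5 : ZZ * ∑ m ∈ Ioc A B, a j m * a j' m ≤ ZZ * ((1 + 2 * θ) * ((B:ℝ) - A)) := by
      have h6 : 0 ≤ θ * ((B:ℝ) - A) := by positivity
      have h7 : θ * ((B:ℝ) - A) ≤ ZZ * (θ * ((B:ℝ) - A)) := by nlinarith
      linarith
    exact le_of_mul_le_mul_left h5 (by linarith)
  have hmain := cheb_abs (Ioc A B) G a ((B:ℝ) - A) θ (Bd ^ 2) hN0 hθ hcard h0 hDb T1 T2 hGp hG
  refine le_trans ?_ hmain
  have hsub : ((Ioc A B).filter (fun a => ∀ j ∈ G, ¬ ∀ k : κ j, ∃ p ∈ PP₁ ∪ PP₂,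
      (p : ℤ) ∣ a - res j p k)) ⊆ (Ioc A B).filter (fun m => ∀ j ∈ G, a j m = 0) := by
    intro m hm
    rw [Finset.mem_filter] at hm ⊢
    refine ⟨hm.1, fun j hj => ?_⟩
    simp only [ha]
    rw [if_neg]
    intro h
    apply hm.2 j hj
    intro k
    exact col2_eq (fun p hp => hi p hp j hj) m k ((hD.pt (κ j) (hκ j hj) _ h).1 k)
  exact_mod_cast Finset.card_le_card hsub

end Pool.Agent.Y831.RC
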