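import Pool.Agent.Y831.RC7.Cheb7

set_option autoImplicit false
set_option linter.unusedSectionVars false
set_option linter.unusedVariables false

/-! # The sieve weights under numerical conditions -/

namespace Pool.Agent.Y831.RC

open Finset Filter Pool.Agent.H256R2.SC

open scoped Classical

theorem fstc_rcm {n₁ n₂ : ℕ} {κ κ' : Type} [Fintype κ] [DecidableEq κ] [Fintype κ']
    [DecidableEq κ'] (tm : Fin n₁ → κ' → κ ⊕ κ') (X₁ : Col n₁ (κ ⊕ κ')) (X₂ : Col n₂ (κ ⊕ κ')) :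
    fstc (rcm (tmf (n₂ := n₂) tm) (Fin.append X₁ X₂)) = rcm tm X₁ := by
  funext i
  show rcm (tmf (n₂ := n₂) tm) (Fin.append X₁ X₂) (Fin.castAdd n₂ i) = rcm tm X₁ i
  rw [rcm_eq, rcm_eq]
  unfold tmf
  rw [Fin.append_left, Fin.append_left]

theorem sndc_rcm {n₁ n₂ : ℕ} {κ κ' : Type} [Fintype κ] [DecidableEq κ] [Fintype κ']
    [DecidableEq κ'] (tm : Fin n₁ → κ' → κ ⊕ κ') (X₁ : Col n₁ (κ ⊕ κ')) (X₂ : Col n₂ (κ ⊕ κ')) :
    sndc (rcm (tmf (n₂ := n₂) tm) (Fin.append X₁ X₂)) = rc X₂ := by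
  funext i
  show rcm (tmf (n₂ := n₂) tm) (Fin.append X₁ X₂) (Fin.natAdd n₁ i) = rc1 (X₂ i)
  rw [rcm_eq]
  unfold tmf
  rw [Fin.append_right, Fin.append_right, rcm1_inr]

/-- the perturbation of the densities of the first block -/
theorem pert7 {n : ℕ} {κ κ' : Type} [Fintype κ] [DecidableEq κ] [Fintype κ'] [DecidableEq κ']
    (g : Fin n → ℝ) (hg : ∀ i, 0 < g i) (u₀ sw S₁ Nc : ℝ) (hu₀ : 0 ≤ u₀) (hsw : 1 ≤ sw)
    (husw : 16 * u₀ ≤ sw) (hgs : ∀ i, g i ≤ 1 / sw ^ 2) (hS₁ : ∑ i, (g i) ^ 2 ≤ S₁)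
    (hmass : 4 * u₀ * S₁ + Nc / sw ≤ 1)
    (tm : Fin n → κ' → κ ⊕ κ')
    (hNc : (((univ.filter (fun i => tm i ≠ Sum.inr)).card : ℝ) ≤ Nc)) :
    ∃ t cc : Fin n → ℝ, (∀ i, 0 ≤ t i) ∧ (∀ i, u₀ * (g i * (1 + t i)) ≤ 1 / 2) ∧
      (∀ i, (tm i = Sum.inr ∧ t i = 4 * (u₀ * g i) ∧ cc i = 1 + 16 * (u₀ * g i) ^ 2) ∨
      (0 ≤ t i ∧ 1 ≤ (1 + t i) ^ 2 * g i ∧ u₀ * (g i * (1 + t i)) ≤ 1 / 4 ∧
        cc i = (1 + 4 * (u₀ * (g i * (1 + t i)))) ^ 2)) ∧
      ∏ i, cc i ≤ Real.exp (16 * u₀ ^ 2 * S₁ + 16 * u₀ / sw * Nc) ∧ ∑ i, g i * t i ≤ 1 := by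
  have hsw0 : 0 < sw := by linarith
  have hsq : ∀ i, Real.sqrt (g i) ≤ 1 / sw := by
    intro i
    rw [Real.sqrt_le_left (by positivity)]
    refine (hgs i).trans (le_of_eq ?_)
    rw [div_pow, one_pow]
  have hs0 : ∀ i, 0 < Real.sqrt (g i) := fun i => Real.sqrt_pos.2 (hg i)
  have h1sw : 1 / sw ≤ 1 := by
    rw [div_le_one hsw0]; exact hsw
  have hgsq : ∀ i, g i ≤ Real.sqrt (g i) := by
    intro i
    have h1 := Real.mul_self_sqrt (hg i).le
    have h2 : Real.sqrt (g i) ≤ 1 := (hsq i).trans h1sw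
    nlinarith [hs0 i]
  have husw' : u₀ * (1 / sw) ≤ 1 / 16 := by
    rw [mul_one_div, div_le_div_iff₀ hsw0 (by norm_num)]
    linarith
  have hug : ∀ i, u₀ * g i ≤ 1 / 16 := by
    intro i
    exact (mul_le_mul_of_nonneg_left ((hgsq i).trans (hsq i)) hu₀).trans husw'
  have hug0 : ∀ i, 0 ≤ u₀ * g i := fun i => mul_nonneg hu₀ (hg i).le
  set t : Fin n → ℝ := fun i => if tm i = Sum.inr then 4 * (u₀ * g i) else (Real.sqrt (g i))⁻¹
    with ht
  set cc : Fin n → ℝ := fun i => if tm i = Sum.inr then 1 + 16 * (u₀ * g i) ^ 2 else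
    (1 + 4 * (u₀ * (g i * (1 + t i)))) ^ 2 with hcc
  have ht0 : ∀ i, 0 ≤ t i := by
    intro i
    simp only [ht]
    split_ifs
    · have := hug0 i; positivity
    · have := hs0 i; positivity
  have hcol : ∀ i, ¬ (tm i = Sum.inr) → g i * t i = Real.sqrt (g i) := by
    intro i hi
    simp only [ht]
    rw [if_neg hi]
    have h1 := Real.mul_self_sqrt (hg i).le
    have h2 := (hs0 i).ne'
    field_simp
    linarith [h1, sq (Real.sqrt (g i))]
  have hcol2 : ∀ i, ¬ (tm i = Sum.inr) → u₀ * (g i * (1 + t i)) ≤ 2 * (u₀ * (1 / sw)) := by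
    intro i hi
    have h1 : g i * (1 + t i) = g i + Real.sqrt (g i) := by
      rw [mul_add, mul_one, hcol i hi]
    rw [h1]
    have h2 : g i + Real.sqrt (g i) ≤ 2 * (1 / sw) := by linarith [hgsq i, hsq i]
    have h3 := mul_le_mul_of_nonneg_left h2 hu₀
    linarith
  have hnn : ∀ i, 0 ≤ u₀ * (g i * (1 + t i)) := fun i => by
    have := ht0 i
    have := hg i
    positivity
  refine ⟨t, cc, ht0, ?_, ?_, ?_, ?_⟩
  · intro i
    by_cases hi : tm i = Sum.inr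
    · have h1 : t i = 4 * (u₀ * g i) := by simp only [ht]; rw [if_pos hi]
      have h2 : u₀ * (g i * (1 + t i)) = (u₀ * g i) * (1 + 4 * (u₀ * g i)) := by rw [h1]; ring
      rw [h2]
      nlinarith [hug i, hug0 i]
    · linarith [hcol2 i hi]
  · intro i
    by_cases hi : tm i = Sum.inr
    · left
      refine ⟨hi, ?_, ?_⟩
      · simp only [ht]; rw [if_pos hi]
      · simp only [hcc]; rw [if_pos hi]
    · right
      refine ⟨ht0 i, ?_, ?_, ?_⟩
      · have h1 : g i * t i = Real.sqrt (g i) := hcol i hi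
        have h2 : t i * Real.sqrt (g i) = 1 := by
          simp only [ht]
          rw [if_neg hi]
          exact inv_mul_cancel₀ (hs0 i).ne'
        have h3 : t i ^ 2 * g i = 1 := by
          calc t i ^ 2 * g i = t i * (g i * t i) := by ring
            _ = 1 := by rw [h1, h2]
        have h4 : (1 + t i) ^ 2 * g i = t i ^ 2 * g i + (1 + 2 * t i) * g i := by ring
        rw [h4, h3]
        have := mul_nonneg (show 0 ≤ 1 + 2 * t i by linarith [ht0 i]) (hg i).le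
        linarith
      · linarith [hcol2 i hi]
      · simp only [hcc]; rw [if_neg hi]
  · have h1 : ∀ i, cc i ≤ Real.exp (16 * u₀ ^ 2 * (g i) ^ 2 +
        (if tm i ≠ Sum.inr then 16 * u₀ / sw else 0)) := by
      intro i
      by_cases hi : tm i = Sum.inr
      · simp only [hcc]
        rw [if_pos hi, if_neg (not_not.2 hi), add_zero]
        have := Real.add_one_le_exp (16 * u₀ ^ 2 * (g i) ^ 2)
        have h3 : 16 * (u₀ * g i) ^ 2 = 16 * u₀ ^ 2 * (g i) ^ 2 := by ring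
        linarith
      · simp only [hcc]
        rw [if_neg hi, if_pos hi]
        have h2 := Real.add_one_le_exp (4 * (u₀ * (g i * (1 + t i))))
        have h3 : (1 + 4 * (u₀ * (g i * (1 + t i)))) ^ 2 ≤
            (Real.exp (4 * (u₀ * (g i * (1 + t i))))) ^ 2 := by
          apply pow_le_pow_left₀
          · have := hnn i; linarith
          · linarith
        refine h3.trans ?_
        rw [← Real.exp_nat_mul]
        apply Real.exp_le_exp.2
        have h4 := hcol2 i hi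
        have h5 : 0 ≤ 16 * u₀ ^ 2 * (g i) ^ 2 := by positivity
        have h6 : 16 * u₀ / sw = 8 * (2 * (u₀ * (1 / sw))) := by ring
        rw [h6]
        push_cast
        linarith
    have h2 : ∏ i, cc i ≤ ∏ i, Real.exp (16 * u₀ ^ 2 * (g i) ^ 2 +
        (if tm i ≠ Sum.inr then 16 * u₀ / sw else 0)) := by
      apply Finset.prod_le_prod
      · intro i _
        simp only [hcc]
        split_ifs
        · positivity
        · positivity
      · intro i _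
        exact h1 i
    refine h2.trans ?_
    rw [← Real.exp_sum, Finset.sum_add_distrib, ← Finset.mul_sum]
    apply Real.exp_le_exp.2
    apply add_le_add
    · exact mul_le_mul_of_nonneg_left hS₁ (by positivity)
    · rw [← Finset.sum_filter, Finset.sum_const, nsmul_eq_mul, mul_comm]
      exact mul_le_mul_of_nonneg_left hNc (by positivity)
  · have h1 : ∀ i, g i * t i ≤ 4 * u₀ * (g i) ^ 2 + (if tm i ≠ Sum.inr then 1 / sw else 0) := by
      intro i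
      by_cases hi : tm i = Sum.inr
      · rw [if_neg (not_not.2 hi), add_zero]
        simp only [ht]
        rw [if_pos hi]
        apply le_of_eq
        ring
      · rw [if_pos hi, hcol i hi]
        have : 0 ≤ 4 * u₀ * (g i) ^ 2 := by positivity
        linarith [hsq i]
    refine (Finset.sum_le_sum (fun i _ => h1 i)).trans (le_trans ?_ hmass)
    rw [Finset.sum_add_distrib, ← Finset.mul_sum]
    apply add_le_add
    · exact mul_le_mul_of_nonneg_left hS₁ (by positivity)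
    · rw [← Finset.sum_filter, Finset.sum_const, nsmul_eq_mul, mul_one_div]
      exact div_le_div_of_nonneg_right hNc hsw0.le

theorem good7_core {PP₁ PP₂ : Finset ℕ} (w y z K Q δ η s CB G₂ v₀ m τ Λ R₂ θ u₀ sw S₁ Nc : ℝ)
    (J m₀ r : ℕ) (hJ : Even J)
    (hm₀ : m₀ ≤ J) (hθ0 : 0 < θ) (hθ1 : θ ≤ 1)
    (hm₁ : ∀ p ∈ PP₁, p.Prime ∧ w < (p:ℝ) ∧ (p:ℝ) ≤ y)
    (hm₂ : ∀ p ∈ PP₂, p.Prime ∧ y < (p:ℝ) ∧ (p:ℝ) ≤ z)
    (hn2 : (PP₂.card:ℝ) + 1 ≤ z) (hrho : rho (rcp PP₁) 1 = WW y / WW w)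
    (hw2 : 2 ≤ w) (hwy : w ≤ y) (hyz : y ≤ z)
    (hy9 : 9 ≤ y) (hz1 : 1 < z) (hQ : 1 ≤ Q) (hη0 : 0 < η) (hη1 : η ≤ 1) (hs : 1 ≤ s)
    (hG₂ : ∑ i, 1 / ((emb PP₂ i : ℕ) : ℝ) ≤ G₂)
    (hH : ∃ h, HypS (fun i => ((emb PP₂ i : ℕ) : ℝ)) (rcp PP₂) h z K v₀ ∧
      ∀ s, h s ≠ 0 → s.card ≤ m₀)
    (hδ : 2 * (Real.log Q / Real.log y) / y ≤ δ) (hδ0 : 0 ≤ δ) (hu₀ : 0 ≤ u₀) (hK : 0 ≤ K)
    (hτ0 : 0 ≤ τ) (hτ1 : τ ≤ 1) (hΛ : 1 ≤ Λ)
    (bl : Fin PP₁.card → ℕ) (B : ℕ) (M : ℕ → ℕ) (hMe : ∀ j, Even (M j))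
    (hbh : ∀ (κ : Type) [Fintype κ] [DecidableEq κ],
      (∀ h : Fin PP₁.card → ℝ, (∀ i, 0 ≤ h i) → (∑ i, h i ≤ 1) →
        (∀ i, (Fintype.card κ : ℝ) * (rcp PP₁ i + h i) ≤ 1 / 2) →
        BHyp (fun i => rcp PP₁ i + h i) (fun k : κ => BHk bl B M k) m τ) ∧
      ∀ k : κ, Lw Λ (BHk bl B M k))
    (hsw : 1 ≤ sw) (husw : 16 * u₀ ≤ sw) (hsww : sw ^ 2 ≤ w)
    (hS₁ : ∑ i, (rcp PP₁ i) ^ 2 ≤ S₁) (hmass : 4 * u₀ * S₁ + Nc / sw ≤ 1)
    (hr : Real.log Q / v₀ ≤ r) (hrm : 2 * (r:ℝ) + 2 ≤ m) (hR₂ : 1 ≤ R₂)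
    (huw : 16 * u₀ ≤ w) (huδ : u₀ * δ ≤ θ / 2) (hv₀ : 0 < v₀)
    (hCB : Q ^ s * Real.exp (2 * u₀ * (y ^ (1 - s) * G₂)) ≤ CB)
    (hE8 : Real.exp (η * ((1 + η) * u₀ * (WW y / WW w * K) / Real.log z -
      Real.log (Q / z) / Real.log z)) ≤ θ / 4)
    (htail : 4 * (u₀ * (WW y / WW w)) * (τ + (δ ^ 2 +
      Real.exp (η * ((1 + η) * u₀ * (WW y / WW w * K) / Real.log z -
      Real.log (Q / z) / Real.log z)))) ≤ θ / 6)
    (hmom : 2 * (u₀ * (WW y / WW w)) * ((1 / 3) ^ J * Real.exp (20 * G₂)) ≤ θ / 6)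
    (hpen : 2 * (u₀ * (WW y / WW w)) * Real.exp (20 * G₂) ≤ R₂ * (θ / 6))
    (hpair : (Real.exp (16 * u₀ ^ 2 * S₁ + 16 * u₀ / sw * Nc) * (1 + τ) ^ 2) *
      (Real.exp (12 * (u₀ ^ 2 * (G₂ / y)) + 12 * (u₀ * δ))) ^ 2 ≤ 1 + θ) :
    ∃ D : Data6 PP₁ PP₂, Good7 D u₀ θ
      (3 * (1 + 3 * Real.exp G₂ * ((J : ℝ) + 2) ^ (2 * J) * (R₂ + 1)) ^ r)
      ((Λ ^ r * CB) ^ 2 * (1 + u₀ * (Λ * (z ^ J + 1)))) ((Λ ^ r * CB) ^ 4) Nc := by
  obtain ⟨h, H, hcard⟩ := hH
  have hzpos : 0 < z := zero_lt_one.trans hz1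
  have hy0 : 0 < y := by linarith
  have hw0 : 0 < w := by linarith
  have hlogy : 0 < Real.log y := Real.log_pos (by linarith)
  have hd : Disjoint PP₁ PP₂ := by
    rw [Finset.disjoint_left]
    intro p hp hp'
    have h1 := (hm₁ p hp).2.2
    have h2 := (hm₂ p hp').2.1
    linarith
  have hPw : ∀ i, w < ((emb PP₁ i : ℕ) : ℝ) := fun i => (hm₁ _ (emb_mem PP₁ i)).2.1
  have hP₁0 : ∀ i, 0 < ((emb PP₁ i : ℕ) : ℝ) := fun i => hw0.trans (hPw i)
  have hPy : ∀ i, y < ((emb PP₂ i : ℕ) : ℝ) := fun i => (hm₂ _ (emb_mem PP₂ i)).2.1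
  have hP0 : ∀ i, 0 < ((emb PP₂ i : ℕ) : ℝ) := fun i => hy0.trans (hPy i)
  have hgy : ∀ i, 1 / ((emb PP₂ i : ℕ) : ℝ) ≤ 1 / y := fun i =>
    one_div_le_one_div_of_le hy0 (hPy i).le
  have h9 : (1:ℝ) / y ≤ 1 / 9 := one_div_le_one_div_of_le (by norm_num) hy9
  have hG0 : 0 ≤ ∑ i, 1 / ((emb PP₂ i : ℕ) : ℝ) := Finset.sum_nonneg fun i _ => by positivity
  have hG₂0 : 0 ≤ G₂ := hG0.trans hG₂
  -- sizes of supports
  have hsupp : ∀ (κ : Type) [Fintype κ] [DecidableEq κ] (D : Col PP₂.card κ),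
      qq (fun i => ((emb PP₂ i : ℕ) : ℝ)) D ≤ Q →
      2 * ∑ i with D i ≠ none, rcp PP₂ i ≤ δ := by
    intro κ _ _ D hD
    have h1 : Real.exp (((Pool.Agent.H256R2.SC.supp D).card : ℝ) * Real.log y) ≤
        qq (fun i => ((emb PP₂ i : ℕ) : ℝ)) D := by
      unfold qq
      rw [prod_nu1]
      have : Real.exp (((Pool.Agent.H256R2.SC.supp D).card : ℝ) * Real.log y) =
          ∏ i ∈ Pool.Agent.H256R2.SC.supp D, Real.exp (Real.log y) := by
        rw [Finset.prod_const, ← Real.exp_nat_mul]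
      rw [this]
      apply Finset.prod_le_prod
      · intro i _; exact (Real.exp_pos _).le
      · intro i _
        rw [Real.exp_log hy0]
        exact (hPy i).le
    have h2 := h1.trans hD
    have h3 : ((Pool.Agent.H256R2.SC.supp D).card : ℝ) * Real.log y ≤ Real.log Q := by
      rw [Real.le_log_iff_exp_le (by linarith)]
      exact h2
    have h4 : ((Pool.Agent.H256R2.SC.supp D).card : ℝ) ≤ Real.log Q / Real.log y := by
      rw [le_div_iff₀ hlogy]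
      exact h3
    have h5 : ∑ i with D i ≠ none, rcp PP₂ i ≤
        (Pool.Agent.H256R2.SC.supp D).card * (1 / y) := by
      have : ∑ i ∈ Pool.Agent.H256R2.SC.supp D, rcp PP₂ i ≤
          ∑ i ∈ Pool.Agent.H256R2.SC.supp D, (1 / y) :=
        Finset.sum_le_sum (fun i _ => hgy i)
      rw [Finset.sum_const, nsmul_eq_mul] at this
      exact this
    refine le_trans ?_ hδ
    calc 2 * ∑ i with D i ≠ none, rcp PP₂ i ≤
          2 * ((Pool.Agent.H256R2.SC.supp D).card * (1 / y)) :=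
          mul_le_mul_of_nonneg_left h5 (by norm_num)
      _ ≤ 2 * (Real.log Q / Real.log y * (1 / y)) := by
          apply mul_le_mul_of_nonneg_left _ (by norm_num)
          exact mul_le_mul_of_nonneg_right h4 (by positivity)
      _ = 2 * (Real.log Q / Real.log y) / y := by ring
  have c1 : ∀ i, rcp PP₂ i ≤ 1 := fun i => (hgy i).trans (by linarith)
  have c2 : ∀ i, 3 * 3 * rcp PP₂ i ≤ 1 := fun i => by
    have : rcp PP₂ i ≤ 1 / y := hgy i
    linarith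
  have cu2 : ∀ i, 2 * u₀ * rcp PP₂ i ≤ 1 / 2 := fun i => by
    unfold rcp
    rw [mul_one_div, div_le_div_iff₀ (hP0 i) (by norm_num)]
    have := (hPy i).le
    linarith
  have cu1 : ∀ i, 2 * u₀ * rcp PP₁ i ≤ 1 / 2 := fun i => by
    unfold rcp
    rw [mul_one_div, div_le_div_iff₀ (hP₁0 i) (by norm_num)]
    have := (hPw i).le
    linarith
  have hr2 : ∀ i, 0 ≤ rcp PP₂ i := fun i => by have := hP0 i; unfold rcp; positivity
  have hr1 : ∀ i, 0 ≤ rcp PP₁ i := fun i => by have := hP₁0 i; unfold rcp; positivity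
  have hWpos := WW_pos w
  have hWpos' := WW_pos y
  have hρ0 : 0 ≤ u₀ * (WW y / WW w) := by positivity
  have hG20 : Real.exp (20 * ∑ i, rcp PP₂ i) ≤ Real.exp (20 * G₂) := by
    apply Real.exp_le_exp.2
    have : ∑ i, rcp PP₂ i ≤ G₂ := hG₂
    linarith
  have c5 : 2 * (u₀ * rho (rcp PP₁) 1) *
      ((1 / 3) ^ J * Real.exp (20 * ∑ i, rcp PP₂ i)) ≤ θ / 6 := by
    refine le_trans ?_ hmom
    rw [hrho]
    apply mul_le_mul_of_nonneg_left _ (by positivity)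
    exact mul_le_mul_of_nonneg_left hG20 (by positivity)
  have c5' : 2 * (u₀ * rho (rcp PP₁) 1) *
      Real.exp (20 * ∑ i, rcp PP₂ i) ≤ R₂ * (θ / 6) := by
    refine le_trans ?_ hpen
    rw [hrho]
    exact mul_le_mul_of_nonneg_left hG20 (by positivity)
  have c7 : 4 * (u₀ * rho (rcp PP₁) 1) * (τ + (δ ^ 2 +
      Real.exp (η * ((1 + η) * u₀ *
      (rho (rcp PP₁) 1 * K) / Real.log z -
        Real.log (Q / z) / Real.log z)))) ≤ θ / 6 := by
    rw [hrho]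
    exact htail
  have c7' : Real.exp (η * ((1 + η) * u₀ *
      (rho (rcp PP₁) 1 * K) / Real.log z -
        Real.log (Q / z) / Real.log z)) ≤ θ / 4 := by
    rw [hrho]
    exact hE8
  have c9 : 0 ≤ rho (rcp PP₁) 1 := by
    rw [hrho]
    positivity
  have hlogQ : 0 ≤ Real.log Q := Real.log_nonneg hQ
  have hn0 : (0:ℝ) ≤ (PP₂.card:ℝ) + 1 := by positivity
  have hQ0 : 0 < Q := by linarith
  have hp1 : ∀ i, 1 ≤ ((emb PP₂ i : ℕ) : ℝ) := fun i => (H.p1 i).le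
  have hcolr : ∀ (κ : Type) [Fintype κ] [DecidableEq κ] (D : Col PP₂.card κ),
      yT (fun i => ((emb PP₂ i : ℕ) : ℝ)) h Q D ≠ 0 → (cols D).card ≤ r := by
    intro κ _ _ D hD
    have := (card_cols H Q D hD).trans hr
    exact_mod_cast this
  have hyQ : ∀ (κ : Type) [Fintype κ] [DecidableEq κ] (D : Col PP₂.card κ),
      yT (fun i => ((emb PP₂ i : ℕ) : ℝ)) h Q D ≠ 0 →
      qq (fun i => ((emb PP₂ i : ℕ) : ℝ)) D ≤ Q := by
    intro κ _ _ D hD
    by_contra hc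
    exact hD (by unfold yT; rw [if_neg hc])
  have hyy1 : ∀ (κ : Type) [Fintype κ] [DecidableEq κ] (D : Col PP₂.card κ),
      |yT (fun i => ((emb PP₂ i : ℕ) : ℝ)) h Q D| ≤ 1 := by
    intro κ _ _ D
    unfold yT
    split_ifs
    · exact yy_abs_le H.h0 H.h1 D
    · simp
  have hCB0 : 0 ≤ CB := le_trans (by positivity) hCB
  have hGL : ∀ (κ : Type) [Fintype κ] [DecidableEq κ], (Fintype.card κ : ℝ) ≤ u₀ →
      Lw (Λ ^ r * CB) (fun x : Col (PP₁.card + PP₂.card) κ => GG (rcp PP₂)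
        (yT (fun i => ((emb PP₂ i : ℕ) : ℝ)) h Q) (fun k => BHk bl B M k) x) := by
    intro κ _ _ hκ
    have e1 := Lw_V5 (n₁ := PP₁.card) (κ := κ) (rcp PP₂) hr2 c1
      (fun i => ((emb PP₂ i : ℕ) : ℝ)) (yT (fun i => ((emb PP₂ i : ℕ) : ℝ)) h Q) (hyy1 κ) Q
      (hyQ κ) (fun k => BHk bl B M k) Λ hΛ (hbh κ).2 r (hcolr κ)
    refine Lw_mono ?_ e1
    apply mul_le_mul_of_nonneg_left _ (by positivity)
    refine (count_sharp (κ := κ) _ hp1 s (by linarith) Q hQ0).trans (le_trans ?_ hCB)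
    apply mul_le_mul_of_nonneg_left _ (Real.rpow_nonneg (by linarith) _)
    apply Real.exp_le_exp.2
    have e2 : ∑ i, 1 / ((emb PP₂ i : ℕ) : ℝ) ^ s ≤ y ^ (1 - s) * G₂ := by
      calc ∑ i, 1 / ((emb PP₂ i : ℕ) : ℝ) ^ s ≤
            ∑ i, y ^ (1 - s) * (1 / ((emb PP₂ i : ℕ) : ℝ)) := by
            apply Finset.sum_le_sum
            intro i _
            have e1 : 1 / ((emb PP₂ i : ℕ) : ℝ) ^ s = ((emb PP₂ i : ℕ) : ℝ) ^ (1 - s) *
                (1 / ((emb PP₂ i : ℕ) : ℝ)) := by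
              rw [Real.rpow_sub (hP0 i), Real.rpow_one]
              have := (hP0 i).ne'
              field_simp
            rw [e1]
            apply mul_le_mul_of_nonneg_right _ (by positivity)
            exact Real.rpow_le_rpow_of_nonpos hy0 (hPy i).le (by linarith)
        _ = y ^ (1 - s) * ∑ i, 1 / ((emb PP₂ i : ℕ) : ℝ) := by rw [Finset.mul_sum]
        _ ≤ y ^ (1 - s) * G₂ := mul_le_mul_of_nonneg_left hG₂ (Real.rpow_nonneg hy0.le _)
    have e3 : 0 ≤ ∑ i, 1 / ((emb PP₂ i : ℕ) : ℝ) ^ s := Finset.sum_nonneg fun i _ => by positivity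
    exact mul_le_mul (by linarith) e2 e3 (by linarith)
  have hκ1 : ∀ (κ : Type) [Fintype κ] [DecidableEq κ], (Fintype.card κ : ℝ) ≤ u₀ →
      ∀ i, (Fintype.card κ : ℝ) * rcp PP₁ i ≤ 1 / 2 := by
    intro κ _ _ hκ i
    have e1 := mul_le_mul_of_nonneg_right hκ (hr1 i)
    have e2 := mul_nonneg hu₀ (hr1 i)
    linarith [cu1 i]
  have hκ2 : ∀ (κ : Type) [Fintype κ] [DecidableEq κ], (Fintype.card κ : ℝ) ≤ u₀ →
      ∀ i, (Fintype.card κ : ℝ) * rcp PP₂ i ≤ 1 := by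
    intro κ _ _ hκ i
    have e1 := mul_le_mul_of_nonneg_right hκ (hr2 i)
    have e2 := mul_nonneg hu₀ (hr2 i)
    linarith [cu2 i]
  have hS₂ : ∑ i, (rcp PP₂ i) ^ 2 ≤ G₂ / y := by
    calc ∑ i, (rcp PP₂ i) ^ 2 ≤ ∑ i, rcp PP₂ i * (1 / y) := by
          apply Finset.sum_le_sum
          intro i _
          rw [sq]
          exact mul_le_mul_of_nonneg_left (hgy i) (hr2 i)
      _ = (∑ i, rcp PP₂ i) * (1 / y) := by rw [Finset.sum_mul]
      _ ≤ G₂ * (1 / y) := mul_le_mul_of_nonneg_right hG₂ (by positivity)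
      _ = G₂ / y := by ring
  refine ⟨⟨bl, B, M, h, Q, J, R₂⟩, ?_⟩
  refine ⟨fun p hp => (hm₁ p hp).1, fun p hp => (hm₂ p hp).1, hd, ?_, ?_, ?_, ?_, ?_, ?_, ?_, ?_⟩
  · -- big
    intro p hp
    rcases Finset.mem_union.1 hp with h | h
    · have := (hm₁ p h).2.1
      linarith
    · have := (hm₂ p h).2.1
      linarith
  · -- Zone
    intro κ _ _ hκ
    exact Zw_ge_one H hr1 (hκ1 κ hκ)
  · -- mean
    intro κ _ _ hκ
    have hB0 : BHyp (rcp PP₁) (fun k : κ => BHk bl B M k) m τ := by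
      have := (hbh κ).1 (fun _ => 0) (fun _ => le_rfl) (by simp) (by
        intro i
        rw [add_zero]
        exact hκ1 κ hκ i)
      simpa only [add_zero] using this
    exact mean6 H hB0 hτ0 hτ1 Q δ η R₂ θ J r hJ hθ0 hθ1 hQ hη0 hη1 hr1
      (hκ1 κ hκ) c9 c2 (hκ2 κ hκ) (hsupp κ) u₀ hκ hδ0 huδ hr (by
        have : (0:ℝ) ≤ r := Nat.cast_nonneg r
        linarith) hR₂ hK c7' c7 c5 c5'
  · -- lw₁
    intro κ _ _ hκ
    have e1 := MM_Lw (n₂ := PP₂.card) hΛ hR₂ (fun k : κ => BHk bl B M k) (hbh κ).2 J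
    have e2 : Lw (1 + u₀ * (Λ * (z ^ J + 1)))
        (fun x : Col (PP₁.card + PP₂.card) κ => 1 - MM (fun k => BHk bl B M k) J R₂ x) := by
      refine Lw_mono ?_ e1
      have e3 := pow_le_pow_left₀ hn0 hn2 J
      have e4 : Λ * (((PP₂.card:ℝ) + 1) ^ J + 1) ≤ Λ * (z ^ J + 1) :=
        mul_le_mul_of_nonneg_left (by linarith) (by linarith)
      have e5 : 0 ≤ Λ * (((PP₂.card:ℝ) + 1) ^ J + 1) := by positivity
      have e6 := mul_le_mul hκ e4 e5 hu₀
      linarith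
    have e3 := Lw_mul (Lw_mul (hGL κ hκ) (hGL κ hκ)) e2
    have e4 : (fun x : Col (PP₁.card + PP₂.card) κ =>
        (Data6.G ⟨bl, B, M, h, Q, J, R₂⟩ κ x) ^ 2 * (1 - Data6.N ⟨bl, B, M, h, Q, J, R₂⟩ κ x)) =
        fun x => GG (rcp PP₂) (yT (fun i => ((emb PP₂ i : ℕ) : ℝ)) h Q)
          (fun k => BHk bl B M k) x * GG (rcp PP₂) (yT (fun i => ((emb PP₂ i : ℕ) : ℝ)) h Q)
          (fun k => BHk bl B M k) x * (1 - MM (fun k => BHk bl B M k) J R₂ x) := by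
      funext x
      unfold Data6.G Data6.N
      ring
    rw [e4]
    refine Lw_mono (le_of_eq (by ring)) e3
  · -- nn
    intro κ _ _ x
    unfold Data6.N MM
    apply Finset.sum_nonneg
    intro k _
    apply mul_nonneg (BHk_nonneg bl B M hMe k _)
    have : 0 ≤ SS J k (sndc x) := by
      refine le_trans ?_ (SS_lower J hJ k (sndc x))
      split_ifs <;> norm_num
    have h2 : 0 ≤ 1 / R₂ := by positivity
    simp only
    linarith
  · -- pt
    intro κ _ _ hκ x hx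
    have e1 := point6 (rcp PP₂) hr2 (yT (fun i => ((emb PP₂ i : ℕ) : ℝ)) h Q) (hyy1 κ)
      (fun k => BHk bl B M k) (fun k x => BHk_nonneg bl B M hMe k x)
      (fun k x hx => BHk_one bl B M k x hx) J m₀ r hJ hm₀ (by
        intro D hD
        refine ⟨hcolr κ D hD, fun k => ?_⟩
        by_cases hf : (fib D k).Nonempty
        · apply hcard
          intro h0
          apply hD
          unfold yT
          split_ifs
          · unfold yy
            apply Finset.prod_eq_zero (Finset.mem_univ k)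
            unfold al
            rw [if_neg hf.ne_empty, h0]
            simp
          · rfl
        · rw [Finset.not_nonempty_iff_eq_empty] at hf
          rw [hf, Finset.card_empty]
          exact Nat.zero_le _) R₂ hR₂ x hx
    refine ⟨e1.1, e1.2.trans ?_⟩
    have hR20 : 0 ≤ R₂ + 1 := by linarith
    apply mul_le_mul_of_nonneg_left _ (by norm_num)
    apply pow_le_pow_left₀ (by positivity)
    have h5 : Real.exp (∑ i, rcp PP₂ i) ≤ Real.exp G₂ := Real.exp_le_exp.2 hG₂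
    have h6 : 0 ≤ ((J : ℝ) + 2) ^ (2 * J) * (R₂ + 1) := by positivity
    have h7 := mul_le_mul_of_nonneg_right h5 h6
    linarith
  · -- pair
    intro κ κ' _ _ _ _ hκ hκ' tm htm hNc
    have hg1 : ∀ i, 0 < rcp PP₁ i := fun i => by have := hP₁0 i; unfold rcp; positivity
    obtain ⟨t, cc, ht0, ht4, htc, hCc, hsum⟩ := pert7 (rcp PP₁) hg1 u₀ sw S₁ Nc hu₀ hsw husw
      (fun i => by
        unfold rcp
        apply one_div_le_one_div_of_le (by positivity)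
        exact hsww.trans (hPw i).le) hS₁ hmass tm hNc
    have hBt : ∀ (κ : Type) [Fintype κ] [DecidableEq κ], (Fintype.card κ : ℝ) ≤ u₀ →
        BHyp (fun i => rcp PP₁ i * (1 + t i)) (fun k : κ => BHk bl B M k) m τ := by
      intro κ _ _ hκ
      have e1 := (hbh κ).1 (fun i => rcp PP₁ i * t i)
        (fun i => mul_nonneg (hg1 i).le (ht0 i)) hsum (by
          intro i
          have e2 : rcp PP₁ i + rcp PP₁ i * t i = rcp PP₁ i * (1 + t i) := by ring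
          rw [e2]
          have e3 : 0 ≤ rcp PP₁ i * (1 + t i) :=
            mul_nonneg (hg1 i).le (by linarith [ht0 i])
          exact (mul_le_mul_of_nonneg_right hκ e3).trans (ht4 i))
      have e2 : (fun i => rcp PP₁ i + rcp PP₁ i * t i) = fun i => rcp PP₁ i * (1 + t i) := by
        funext i; ring
      rw [e2] at e1
      exact e1
    have e1 := pair_upper7 (κ := κ) (κ' := κ') H hr1 u₀ hu₀ (fun i => by
        unfold rcp
        rw [mul_one_div, div_le_div_iff₀ (hP₁0 i) (by norm_num)]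
        have := (hPw i).le
        linarith) bl B M hτ0 tm htm t cc ht0 ht4 htc _ hCc
      (hBt κ hκ) (hBt κ' hκ') Q δ (G₂ / y) hκ hκ' cu2 hS₂
      (fun D hD => hsupp κ D (hyQ κ D hD)) (fun D hD => hsupp κ' D (hyQ κ' D hD)) r
      (hcolr κ) (hcolr κ') (by
        have : (0:ℝ) ≤ r := Nat.cast_nonneg r
        linarith)
    rw [EE_append]
    have e2 : ∀ (X₁ : Col PP₁.card (κ ⊕ κ')) (X₂ : Col PP₂.card (κ ⊕ κ')),
        (Data6.G ⟨bl, B, M, h, Q, J, R₂⟩ κ (lc (Fin.append X₁ X₂))) ^ 2 *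
        (Data6.G ⟨bl, B, M, h, Q, J, R₂⟩ κ' (rcm (tmf tm) (Fin.append X₁ X₂))) ^ 2 =
        (V5 (rcp PP₂) (yT (fun i => ((emb PP₂ i : ℕ) : ℝ)) h Q) (fun k => BHk bl B M k)
          (lc X₁) (lc X₂)) ^ 2 *
        (V5 (rcp PP₂) (yT (fun i => ((emb PP₂ i : ℕ) : ℝ)) h Q) (fun k => BHk bl B M k)
          (rcm tm X₁) (rc X₂)) ^ 2 := by
      intro X₁ X₂
      have f1 : fstc (lc (Fin.append X₁ X₂)) = lc X₁ := by
        have : fstc (lc (Fin.append X₁ X₂)) = lc (fstc (Fin.append X₁ X₂)) := rfl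
        rw [this, fstc_append]
      have f2 : sndc (lc (Fin.append X₁ X₂)) = lc X₂ := by
        have : sndc (lc (Fin.append X₁ X₂)) = lc (sndc (Fin.append X₁ X₂)) := rfl
        rw [this, sndc_append]
      unfold Data6.G GG
      simp only [f1, f2, fstc_rcm, sndc_rcm]
    simp only [e2]
    refine e1.trans ?_
    have z1 : 0 ≤ Data6.Z ⟨bl, B, M, h, Q, J, R₂⟩ κ :=
      zero_le_one.trans (Zw_ge_one H hr1 (hκ1 κ hκ))
    have z2 : 0 ≤ Data6.Z ⟨bl, B, M, h, Q, J, R₂⟩ κ' :=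
      zero_le_one.trans (Zw_ge_one H hr1 (hκ1 κ' hκ'))
    exact mul_le_mul_of_nonneg_right hpair (mul_nonneg z1 z2)
  · -- lw₂
    intro κ κ' _ _ _ _ hκ hκ' tm htm
    have e1 := Lw_lc (κ' := κ') (hGL κ hκ)
    have e2 := Lw_rcm (κ := κ) (tmf_inj (n₂ := PP₂.card) htm) (hGL κ' hκ')
    have e3 := Lw_mul (Lw_mul e1 e1) (Lw_mul e2 e2)
    have e4 : (fun X : Col (PP₁.card + PP₂.card) (κ ⊕ κ') =>
        (Data6.G ⟨bl, B, M, h, Q, J, R₂⟩ κ (lc X)) ^ 2 *
        (Data6.G ⟨bl, B, M, h, Q, J, R₂⟩ κ' (rcm (tmf tm) X)) ^ 2) =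
        fun X => GG (rcp PP₂) (yT (fun i => ((emb PP₂ i : ℕ) : ℝ)) h Q)
          (fun k => BHk bl B M k) (lc X) * GG (rcp PP₂) (yT (fun i => ((emb PP₂ i : ℕ) : ℝ)) h Q)
          (fun k => BHk bl B M k) (lc X) *
          (GG (rcp PP₂) (yT (fun i => ((emb PP₂ i : ℕ) : ℝ)) h Q)
          (fun k => BHk bl B M k) (rcm (tmf tm) X) * GG (rcp PP₂) (yT (fun i => ((emb PP₂ i : ℕ) : ℝ)) h Q)
          (fun k => BHk bl B M k) (rcm (tmf tm) X)) := by
      funext X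
      unfold Data6.G
      ring
    rw [e4]
    refine Lw_mono (le_of_eq (by ring)) e3

end Pool.Agent.Y831.RC
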