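import Pool.Agent.Y831.RC6.Par7
import Pool.Agent.Y831.RC7.Mk7

set_option autoImplicit false
set_option linter.unusedSectionVars false
set_option linter.unusedVariables false

/-! # The sieve weights for two windows: assembly -/

namespace Pool.Agent.Y831.RC

open Finset Filter Pool.Agent.H256R2.SC

open scoped Classical

theorem q_τ7 {e : ℝ} (he : 1000 ≤ e) (b₀ : ℕ) (hb₀ : 4 * e ≤ b₀) :
    Real.exp e * (1 / 3) ^ b₀ ≤ Real.exp (-260) * Real.exp (-(2 * e)) := by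
  have e1 := third_le_exp b₀ (4 * e) hb₀
  calc Real.exp e * (1 / 3) ^ b₀ ≤ Real.exp e * Real.exp (-(4 * e)) :=
        mul_le_mul_of_nonneg_left e1 (Real.exp_pos e).le
    _ = Real.exp (e + -(4 * e)) := by rw [← Real.exp_add]
    _ ≤ Real.exp (-260 + -(2 * e)) := Real.exp_le_exp.2 (by linarith)
    _ = _ := by rw [← Real.exp_add]

theorem sum_rcp_PS (w y : ℝ) (hy : 0 ≤ y) (hw : 0 ≤ w) :
    ∑ i, rcp (PS w y ∅) i ≤
      ∑ p ∈ (Finset.Ioc ⌊w⌋₊ ⌊y⌋₊).filter Nat.Prime, (1 : ℝ) / p := by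
  have e1 : ∑ i, rcp (PS w y ∅) i =
      ∑ p ∈ (univ : Finset (Fin (PS w y ∅).card)).map (emb (PS w y ∅)), (1 : ℝ) / p := by
    rw [Finset.sum_map]
    rfl
  rw [e1]
  apply Finset.sum_le_sum_of_subset_of_nonneg
  · intro p hp
    rw [Finset.mem_map] at hp
    obtain ⟨i, hi, rfl⟩ := hp
    obtain ⟨e2, e3, e4⟩ := PS_mem hy (emb_mem (PS w y ∅) i)
    rw [Finset.mem_filter, Finset.mem_Ioc]
    exact ⟨⟨(Nat.floor_lt hw).2 e3, Nat.le_floor e4⟩, e2⟩
  · intro p _ _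
    positivity

theorem s_small2 {x θ : ℝ} (hx0 : 0 ≤ x) (hθ1 : θ ≤ 1) (hx : x ≤ θ / 8) :
    Real.exp x ≤ 1 + θ / 4 := by
  have hx1 : |x| ≤ 1 := by
    rw [abs_of_nonneg hx0]
    linarith
  have e1 := Real.abs_exp_sub_one_le hx1
  have e2 := (abs_le.1 e1).2
  rw [abs_of_nonneg hx0] at e2
  linarith

theorem s_pair7 {θ L e Y x : ℝ} (hθ : 0 < θ) (hθ1 : θ ≤ 1) (hL : 800 / θ ≤ L) (hL2 : 2 ≤ L)
    (he : 16 / θ ≤ e)
    (he0 : 0 ≤ e) (heL : e ≤ L)
    (u : ℝ) (hu0 : 0 ≤ u) (hu : u ≤ L ^ 2 / 2) (hy : L ^ 10 ≤ Real.exp Y)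
    (hx0 : 0 ≤ x) (hx : x ≤ θ / 8) :
    (Real.exp x * (1 + Real.exp (-(2 * e))) ^ 2) *
      (Real.exp (12 * (u ^ 2 * ((11 / 10 * e) / Real.exp Y)) + 12 * (u * (1 / L ^ 4)))) ^ 2 ≤
      1 + θ := by
  have h1 := s_pair (θ := θ / 4) (L := L) (e := e) (Y := Y) (by positivity) (by linarith)
    (by
      have : 200 / (θ / 4) = 800 / θ := by field_simp; norm_num
      rw [this]; exact hL) hL2 (by
      have : 4 / (θ / 4) = 16 / θ := by field_simp; norm_num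
      rw [this]; exact he) he0 heL u hu0 hu hy
  have h2 := s_small2 hx0 hθ1 hx
  have h3 : Real.exp (-(2 * e)) ≤ θ / 4 := by
    apply s_small (by positivity)
    have e1 : 1 / (θ / 4) = 4 / θ := by field_simp
    rw [e1]
    have e2 : 16 / θ = 4 * (4 / θ) := by ring
    have e3 : 1 ≤ 4 / θ := by
      rw [le_div_iff₀ hθ]
      linarith
    linarith
  have h4 := Real.exp_pos (-(2 * e))
  set E := (Real.exp (12 * (u ^ 2 * ((11 / 10 * e) / Real.exp Y)) + 12 * (u * (1 / L ^ 4)))) ^ 2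
    with hE
  have hE0 : 0 < E := by positivity
  set τ := Real.exp (-(2 * e)) with hτ
  have h5 : 0 ≤ (1 + τ) * E := by positivity
  have hex := Real.exp_pos x
  have n1 := mul_nonneg hθ.le (sub_nonneg.2 hθ1)
  have n2 := mul_nonneg (mul_nonneg hθ.le hθ.le) (sub_nonneg.2 hθ1)
  calc (Real.exp x * (1 + τ) ^ 2) * E = (Real.exp x * (1 + τ)) * ((1 + τ) * E) := by ring
    _ ≤ ((1 + θ / 4) * (1 + θ / 4)) * (1 + θ / 4) := by
        apply mul_le_mul _ h1 h5 (by positivity)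
        exact mul_le_mul h2 (by linarith) (by positivity) (by positivity)
    _ ≤ 1 + θ := by nlinarith only [n1, n2, hθ, hθ1]

theorem cov7_at (ε c C CR C₁ K₀ M₀ θ : ℝ) (hε : 0 < ε) (hε4 : ε ≤ 1 / 16) (hc : 0 < c)
    (hC : 0 < C) (hC₁ : 0 < C₁) (hCR0 : 0 ≤ CR) (hθ0 : 0 < θ) (hθ1 : θ ≤ 1)
    (hWb : ∀ y : ℝ, 2 ≤ y → c ≤ WW y * Real.log y ∧ WW y * Real.log y ≤ C)
    (hSR : ∀ a b : ℝ, 2 ≤ a → a ≤ b →
    ∑ p ∈ (Finset.Ioc ⌊a⌋₊ ⌊b⌋₊).filter Nat.Prime, (1 : ℝ) / p ≤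
      Real.log (Real.log b / Real.log a) + CR / Real.log a)
    (hBH : ∀ (w y : ℝ) (b₀ : ℕ) (m τ : ℝ),
    2 ≤ w → C₁ ≤ Real.log w → w ≤ y → Even b₀ →
    0 ≤ m → τ ≤ 1 → m * (1 / 3) ^ b₀ ≤ Real.exp (-260) * τ →
    ∃ (bl : Fin (PS w y ∅).card → ℕ) (B : ℕ) (M : ℕ → ℕ), (∀ j, Even (M j)) ∧
      ∀ (κ : Type) [Fintype κ] [DecidableEq κ],
      (∀ h : Fin (PS w y ∅).card → ℝ, (∀ i, 0 ≤ h i) → (∑ i, h i ≤ 1) →
        (∀ i, (Fintype.card κ : ℝ) * (rcp (PS w y ∅) i + h i) ≤ 1 / 2) →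
        BHyp (fun i => rcp (PS w y ∅) i + h i) (fun k : κ => BHk bl B M k) m τ) ∧
      ∀ k : κ, Lw (Real.exp (Real.log y * (2 * b₀ + 4))) (BHk bl B M k))
    (hK1 : 1000 ≤ K₀) (hK2 : 100 / ε ^ 2 ≤ K₀) (hK3 : 300 / ε ≤ K₀) (hK4 : 64 / (c * ε) ≤ K₀)
    (hK5 : 72 * (C / (2 * θ)) ≤ K₀) (hK6 : 4 / θ ≤ K₀) (hK7 : 16 / θ ≤ K₀)
    (hM1 : 10 ≤ M₀) (hM2 : 200 / ε ≤ M₀) (hM3 : C ≤ M₀)
    (hM4 : Real.exp C₁ ≤ M₀) (hM5 : 2 * CR ≤ M₀) (hM6 : 200 / θ ≤ M₀)
    (hM7 : (3 + 1 / θ) / ε ≤ M₀) (hM8 : 800 / θ ≤ M₀)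
    (L e : ℝ) (he1 : K₀ ≤ e) (he3 : K₀ * e ^ 3 ≤ Real.exp e) (helog : Real.log (K₀ * e) ≤ e / K₀)
    (a1 : M₀ ≤ L) (a2 : 1 ≤ Real.log L) (a3 : M₀ ≤ L ^ ε) (a4 : Real.log L * M₀ ≤ L)
    (a6 : M₀ * (Real.log L) ^ 2 ≤ L)
    (heu : e ≤ (1 - ε) * Real.log L)
    (b1 : M₀ * Real.log L ≤ L * Real.exp (-e) / e ^ 2) :
    ∃ (D : Data6 (PS (L ^ 8) (Real.exp (L * Real.exp (-e) / e ^ 2)) ∅)
      (PS (Real.exp (L * Real.exp (-e) / e ^ 2)) (Real.exp (ε ^ 2 * L / (100 * e))) ∅))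
      (Bd L₁ L₂ : ℝ), Good7 D ((1 / 4 - 3 * ε) * (e * L * WW (L ^ 8))) θ Bd L₁ L₂
        (2 * (L ^ 2 * Real.log L)) ∧
      0 ≤ Bd ∧ Bd ^ 2 ≤ Real.exp (e ^ 2 * Real.exp e) ∧
      L₁ ≤ θ * Real.exp ((1 - ε) * L) ∧ L₂ ≤ θ * Real.exp ((1 - ε) * L) ∧
      L ^ 8 ≤ Real.exp (L * Real.exp (-e) / e ^ 2) ∧
      Real.exp (L * Real.exp (-e) / e ^ 2) ≤ Real.exp (ε ^ 2 * L / (100 * e)) := by
  have he1000 : 1000 ≤ e := by linarith only [hK1, he1]
  have he0 : 0 < e := by linarith only [he1000]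
  have he1' : 1 ≤ e := by linarith only [he1000]
  have hε4' : ε ≤ 1 / 4 := by linarith only [hε4]
  set l : ℝ := Real.log L with hl
  have hL2 : 2 ≤ L := by linarith only [hM1, a1]
  have hL0 : 0 < L := by linarith only [hL2]
  have hL1 : 1 ≤ L := by linarith only [hL2]
  have hl0 : 0 ≤ l := by linarith only [a2]
  have hel : e ≤ l := by
    have : 0 ≤ ε * l := mul_nonneg hε.le hl0
    linarith only [this, heu]
  have hM0 : 0 < M₀ := by linarith only [hM1]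
  have hlL : l ≤ L := by
    have h1 : 10 * l ≤ M₀ * l := q_mul hM1 hl0
    linarith only [h1, a4, hl0]
  have hExpL : Real.exp e ≤ L := by
    rw [← Real.exp_log hL0]
    exact Real.exp_le_exp.2 hel
  have he3' : e ^ 3 ≤ Real.exp e := q_cube hK1 he1' he3
  have he30 : 0 ≤ e ^ 3 := by positivity
  have h72 : 72 * (C / (2 * θ)) * e ^ 3 ≤ Real.exp e := (q_mul hK5 he30).trans he3
  have h12 : 12 * (C / (2 * θ)) * e ^ 3 ≤ Real.exp e := by
    have h0 : 0 < C / (2 * θ) := by positivity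
    have : 12 * (C / (2 * θ)) ≤ K₀ := by linarith only [hK5, h0]
    exact (q_mul this he30).trans he3
  set Y : ℝ := L * Real.exp (-e) / e ^ 2 with hY
  set Z : ℝ := ε ^ 2 * L / (100 * e) with hZ
  obtain ⟨hYZ, hvZ, hZ0, hY0, _, _⟩ := p_YZ hε hε4' hL0 (hK2.trans he1) he3' hY hZ
  have hYM : M₀ ≤ Y := by
    have : M₀ * 1 ≤ M₀ * l := mul_le_mul_of_nonneg_left a2 hM0.le
    linarith only [this, b1]
  have hlog1 : Real.log e ≤ e / 20 := q_log1 hK1 he1' helog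
  have hlog2 : Real.log (100 * e / ε ^ 2) ≤ ε / 4 * e := q_log2 hε hK1 he1' helog hK2 hK3
  have hCRY : CR / Y ≤ 1 / 2 := by
    rw [div_le_iff₀ hY0]
    linarith only [hM5, hYM]
  have h64 : 64 / ε ≤ 200 / ε := div_le_div_of_nonneg_right (by norm_num) hε.le
  set m₀ : ℕ := ⌈20 * e⌉₊ with hm₀
  have hm₀1 : 20 * e ≤ m₀ := Nat.le_ceil _
  have hm₀2 : (m₀ : ℝ) < 20 * e + 1 := Nat.ceil_lt_add_one (by positivity)
  obtain ⟨hG₂, hprof⟩ := blk2_prof ε c C CR hε hε4' hc hWb hSR L e Y Z hL1 he1' hY0 hY hZ hYZ hvZ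
    hlog1 hlog2 hCRY he1000 (hK4.trans he1) (by linarith only [hM1, hYM])
    (h64.trans (hM2.trans hYM)) m₀ hm₀1
  set w : ℝ := L ^ 8 with hw
  have hwL : L ≤ w := by
    calc L = L ^ 1 := (pow_one L).symm
      _ ≤ L ^ 8 := pow_le_pow_right₀ hL1 (by norm_num)
  have hw2 : 2 ≤ w := by linarith only [hwL, hL2]
  have hlw : Real.log w = 8 * l := by rw [hw, Real.log_pow]; push_cast; ring
  have hwy : w ≤ Real.exp Y := p_pow (L := L) (Y := Y) hL1 8
    (le_trans (q_mul (by push_cast; linarith only [hM1]) hl0) b1)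
  set y : ℝ := Real.exp Y with hy
  set z : ℝ := Real.exp Z with hz
  have hly : Real.log y = Y := Real.log_exp Y
  have hlz : Real.log z = Z := Real.log_exp Z
  have hyY : Y + 1 ≤ y := Real.add_one_le_exp Y
  have hyz : y ≤ z := Real.exp_le_exp.2 hYZ
  have hy9 : 9 ≤ y := by linarith only [hyY, hYM, hM1]
  have hz1 : 1 < z := by linarith only [hy9, hyz]
  -- Mertens
  obtain ⟨hWw1, hWw2⟩ := hWb w hw2
  obtain ⟨hWy1, hWy2⟩ := hWb y (by linarith only [hy9])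
  rw [hlw] at hWw1 hWw2
  rw [hly] at hWy1 hWy2
  have hV0 := WW_pos y
  have hW0 := WW_pos w
  have hW1 := WW_le_one w
  set V : ℝ := WW y with hV
  set W : ℝ := WW w with hW
  have heLW : 0 ≤ e * L * W := by positivity
  have hε3 : 0 ≤ 1 / 4 - 3 * ε := by linarith only [hε4]
  set u : ℝ := (1 / 4 - 3 * ε) * (e * L * W) with hu
  have hu0 : 0 ≤ u := mul_nonneg hε3 heLW
  have hu12 : u ≤ (1 / 2 - 3 * ε) * (e * L * W) := by
    rw [hu]
    exact mul_le_mul_of_nonneg_right (by linarith only []) heLW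
  have hu12' : 2 * u ≤ (1 / 2 - 3 * ε) * (e * L * W) := by
    have h1 : 2 * u = (1 / 2 - 6 * ε) * (e * L * W) := by rw [hu]; ring
    rw [h1]
    exact mul_le_mul_of_nonneg_right (by linarith only [hε]) heLW
  have hu2 : u ≤ L ^ 2 / 2 := p_u2 hL2 hlL he0.le hel hW0 hW1 hε u hu12
  obtain ⟨hlam0, _, hlam2⟩ := p_lam hε hε4' hL1 he1' hV0 hW0 hWy2 hY u hu0 hu12
  have hlam1 : u * (V / W) ≤ (1 / 4 - 3 * ε) * (e * L * V) := by
    apply le_of_eq
    rw [hu]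
    field_simp
  have hul : u ≤ l * L := by
    have e1 : u ≤ 1 * (e * L * W) := by
      rw [hu]
      exact mul_le_mul_of_nonneg_right (by linarith only [hε]) heLW
    have e2 : e * L * W ≤ e * L * 1 := mul_le_mul_of_nonneg_left hW1 (by positivity)
    have e3 : e * L ≤ l * L := mul_le_mul_of_nonneg_right hel hL0.le
    linarith only [e1, e2, e3]
  have hL10' : 10 ≤ L := hM1.trans a1
  have hL4 : 16 * u ≤ L ^ 4 := by
    have e1 : l * L ≤ L * L := mul_le_mul_of_nonneg_right hlL hL0.le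
    have e2 : 16 ≤ L ^ 2 := by nlinarith only [hL10']
    have e3 : 16 * L ^ 2 ≤ L ^ 2 * L ^ 2 := mul_le_mul_of_nonneg_right e2 (by positivity)
    have e4 : L ^ 4 = L ^ 2 * L ^ 2 := by ring
    rw [e4]
    nlinarith only [e1, e3, hul]
  have hL48 : L ^ 4 ≤ w := by
    rw [hw]
    exact pow_le_pow_right₀ hL1 (by norm_num)
  have huw : 16 * u ≤ w := hL4.trans hL48
  set v₀ : ℝ := L * Real.exp (-e) with hv₀
  have hv₀0 : 0 < v₀ := by positivity
  -- the parameters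
  set J : ℕ := 2 * ⌈15 * e⌉₊ with hJ
  have hJe : Even J := even_two_mul _
  have hJ1 : 30 * e ≤ J := by
    have := Nat.le_ceil (15 * e)
    rw [hJ]; push_cast; linarith only [this]
  have hJ2 : (J:ℝ) ≤ 30 * e + 2 := by
    have := (Nat.ceil_lt_add_one (show 0 ≤ 15 * e by positivity)).le
    rw [hJ]; push_cast; linarith only [this]
  have hm₀J : m₀ ≤ J := by
    have : (m₀:ℝ) ≤ J := by linarith only [hm₀2, hJ1, he1000]
    exact_mod_cast this
  set b₀ : ℕ := 2 * ⌈2 * e⌉₊ with hb₀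
  have hb₀e : Even b₀ := even_two_mul _
  have hb₀1 : 4 * e ≤ b₀ := by
    have := Nat.le_ceil (2 * e)
    rw [hb₀]; push_cast; linarith only [this]
  have hb₀2 : (b₀:ℝ) ≤ 4 * e + 2 := by
    have := (Nat.ceil_lt_add_one (show 0 ≤ 2 * e by positivity)).le
    rw [hb₀]; push_cast; linarith only [this]
  set Q : ℝ := Real.exp ((1 / 4 - ε) * L) with hQ
  have hlQ : Real.log Q = (1 / 4 - ε) * L := Real.log_exp _
  have hhalf : 0 ≤ 1 / 4 - ε := by linarith only [hε4]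
  have hlQ0 : 0 ≤ (1 / 4 - ε) * L := mul_nonneg hhalf hL0.le
  have hQ1 : 1 ≤ Q := Real.one_le_exp hlQ0
  set r : ℕ := ⌈Real.log Q / v₀⌉₊ with hr
  have hr1 : Real.log Q / v₀ ≤ r := Nat.le_ceil _
  have hrv : Real.log Q / v₀ ≤ Real.exp e / 4 := by
    rw [hlQ, hv₀, div_le_iff₀ (by positivity), Real.exp_neg]
    have e1 : Real.exp e / 4 * (L * (Real.exp e)⁻¹) = L / 4 := by
      have := (Real.exp_pos e).ne'
      field_simp
    rw [e1]
    have : 0 ≤ ε * L := by positivity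
    linarith only [this]
  have hexp1000 : 1001 ≤ Real.exp e := by
    have := Real.add_one_le_exp e
    linarith only [this, he1000]
  have hr2 : (r:ℝ) ≤ Real.exp e / 4 + 1 := by
    have := (Nat.ceil_lt_add_one (show 0 ≤ Real.log Q / v₀ by
      apply div_nonneg _ hv₀0.le
      rw [hlQ]
      exact hlQ0)).le
    linarith only [this, hrv]
  have hrm : 2 * (r:ℝ) + 2 ≤ Real.exp e := by linarith only [hr2, hexp1000]
  have hre : 2 * (r:ℝ) ≤ Real.exp e := by linarith only [hrm]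
  have hre1 : (r:ℝ) ≤ Real.exp e := by linarith only [hr2, hexp1000]
  have hC1l : C₁ ≤ l := by
    rw [hl, Real.le_log_iff_exp_le hL0]
    exact hM4.trans a1
  have hεl : 0 ≤ ε * l := mul_nonneg hε.le hl0
  -- the first block
  obtain ⟨bl, B, M, hMe, hbh⟩ := hBH w y b₀ (Real.exp e) (Real.exp (-(2 * e))) hw2
    (by rw [hlw]; linarith only [hC1l, hl0]) hwy hb₀e (Real.exp_pos e).le
    (by rw [Real.exp_le_one_iff]; linarith only [he0]) (q_τ7 he1000 b₀ hb₀1)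
  have hQz : Real.log (Q / z) = (1 / 4 - ε) * L - Z := by
    rw [Real.log_div (Real.exp_pos _).ne' (Real.exp_pos _).ne', hlQ, hlz]
  have hEE : Real.exp (ε * ((1 + ε) * u * (V / W * (1 / ((1 - ε) * V * e))) / Real.log z -
      Real.log (Q / z) / Real.log z)) ≤ Real.exp (-(20 * e)) := by
    apply Real.exp_le_exp.2
    rw [hlz, hQz]
    have h1 := s_exp hε hε4' hL1 he1' hV0 hZ (u * (V / W)) hlam0 hlam1
    have h2 : (1 + ε) * u * (V / W * (1 / ((1 - ε) * V * e))) =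
        (1 + ε) * (u * (V / W) * (1 / ((1 - ε) * V * e))) := by ring
    rw [h2]
    exact h1
  have hEθ : Real.exp (-(20 * e)) ≤ θ / 4 := by
    apply s_small (by positivity)
    have e1 : 1 / (θ / 4) = 4 / θ := by field_simp
    rw [e1]
    linarith only [hK6, he1, he1000]
  have c1 : 2 * (Real.log Q / Real.log y) / y ≤ 1 / L ^ 4 := by
    have h1 := p_δ hε hε4' hL2 (by linarith only [hM1, hYM])
      ((q_mul (by linarith only [hM1]) hl0).trans b1)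
    refine le_trans ?_ h1
    rw [hlQ, hly]
    apply div_le_div_of_nonneg_right _ (Real.exp_pos _).le
    apply mul_le_mul_of_nonneg_left _ (by norm_num)
    apply div_le_div_of_nonneg_right _ hY0.le
    exact mul_le_mul_of_nonneg_right (by linarith only []) hL0.le
  have c3 := s_CB hε hε4' hL2 a2 hlL he0.le hel u hu0 hu2
      ((q_mul ((div_le_div_of_nonneg_right (by norm_num) hε.le).trans hM2) hl0).trans b1)
  have c4 : 200 / ε * Real.log L ≤ L :=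
    (q_mul hM2 hl0).trans (by rw [mul_comm]; exact a4)
  have hεL : 3 + 1 / θ ≤ ε * L := by
    have h1 := hM7.trans a1
    rw [div_le_iff₀ hε] at h1
    linarith only [h1]
  have c5 := s_L hε hε4' hL2 a2 hθ0 c4 (hK3.trans he1) (by linarith only [he1000]) hεL hY hZ
    u hu0 hu2 b₀ J r hb₀2 hJ2 hre
  have hΛ : 1 ≤ Real.exp (Y * (2 * b₀ + 4)) := Real.one_le_exp (by positivity)
  have hbh' : ∀ (κ : Type) [Fintype κ] [DecidableEq κ],
      (∀ h : Fin (PS w y ∅).card → ℝ, (∀ i, 0 ≤ h i) → (∑ i, h i ≤ 1) →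
        (∀ i, (Fintype.card κ : ℝ) * (rcp (PS w y ∅) i + h i) ≤ 1 / 2) →
        BHyp (fun i => rcp (PS w y ∅) i + h i) (fun k : κ => BHk bl B M k) (Real.exp e)
        (Real.exp (-(2 * e)))) ∧
      ∀ k : κ, Lw (Real.exp (Y * (2 * b₀ + 4))) (BHk bl B M k) := by
    intro κ _ _
    have := hbh κ
    rw [hly] at this
    exact this
  have hy0 : 0 < y := by linarith only [hy9]
  have hz0 : 0 < z := by linarith only [hz1]
  have h1ε : 0 < 1 - ε := by linarith only [hε4]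
  have hL10 : L ^ 10 ≤ Real.exp Y := p_pow (L := L) (Y := Y) hL1 10
    (le_trans (q_mul (by push_cast; linarith only [hM1]) hl0) b1)
  have huδ : u * (1 / L ^ 4) ≤ θ / 2 := by
    have hLθ := hM6.trans a1
    rw [div_le_iff₀ hθ0] at hLθ
    calc u * (1 / L ^ 4) ≤ L ^ 2 / 2 * (1 / L ^ 4) := mul_le_mul_of_nonneg_right hu2 (by positivity)
      _ = 1 / 2 * (1 / L ^ 2) := by field_simp
      _ ≤ 1 / 2 * (1 / L) := by
          apply mul_le_mul_of_nonneg_left _ (by norm_num)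
          apply one_div_le_one_div_of_le hL0
          nlinarith only [hL2]
      _ ≤ θ / 2 := by
          rw [mul_one_div, div_le_div_iff₀ hL0 (by norm_num)]
          linarith only [hLθ]
  have hYL : Y ≤ L := by
    rw [hY, div_le_iff₀ (by positivity)]
    have e1 : Real.exp (-e) ≤ 1 := Real.exp_le_one_iff.2 (by linarith only [he0])
    have e2 : 1 ≤ e ^ 2 := one_le_pow₀ he1'
    calc L * Real.exp (-e) ≤ L * 1 := mul_le_mul_of_nonneg_left e1 hL0.le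
      _ ≤ L * e ^ 2 := mul_le_mul_of_nonneg_left e2 hL0.le
  have hw0 : 0 < w := by linarith only [hw2]
  have hS₁ : ∑ i, (rcp (PS w y ∅) i) ^ 2 ≤ 2 / L ^ 7 := by
    have e1 : ∑ i, rcp (PS w y ∅) i ≤ 2 * L := by
      refine (sum_rcp_PS w y hy0.le hw0.le).trans ((hSR w y hw2 hwy).trans ?_)
      rw [hlw, hly]
      have f1 : Y / (8 * l) ≤ Y := div_le_self hY0.le (by linarith only [a2])
      have f2 : 0 < Y / (8 * l) := by positivity
      have f3 : Real.log (Y / (8 * l)) ≤ Y := by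
        have := Real.log_le_sub_one_of_pos f2
        linarith only [this, f1]
      have f4 : CR / (8 * l) ≤ CR := div_le_self hCR0 (by linarith only [a2])
      linarith only [f3, f4, hYL, hM5, a1, hCR0]
    have e2 : ∀ i, (rcp (PS w y ∅) i) ^ 2 ≤ rcp (PS w y ∅) i * (1 / w) := by
      intro i
      have f1 := (PS_mem hy0.le (emb_mem (PS w y ∅) i)).2.1
      have f2 : rcp (PS w y ∅) i ≤ 1 / w := one_div_le_one_div_of_le hw0 f1.le
      have f3 : 0 ≤ rcp (PS w y ∅) i := by unfold rcp; positivity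
      rw [sq]
      exact mul_le_mul_of_nonneg_left f2 f3
    calc ∑ i, (rcp (PS w y ∅) i) ^ 2 ≤ ∑ i, rcp (PS w y ∅) i * (1 / w) :=
          Finset.sum_le_sum (fun i _ => e2 i)
      _ = (∑ i, rcp (PS w y ∅) i) * (1 / w) := by rw [Finset.sum_mul]
      _ ≤ (2 * L) * (1 / w) := mul_le_mul_of_nonneg_right e1 (by positivity)
      _ = 2 / L ^ 7 := by rw [hw]; field_simp
  have hL2pos : (1:ℝ) ≤ L ^ 2 := one_le_pow₀ hL1
  have hmass : 4 * u * (2 / L ^ 7) + 2 * (L ^ 2 * l) / L ^ 4 ≤ 1 := by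
    have e1 : 4 * u * (2 / L ^ 7) ≤ 4 * (L * L) * (2 / L ^ 7) := by
      apply mul_le_mul_of_nonneg_right _ (by positivity)
      have : l * L ≤ L * L := mul_le_mul_of_nonneg_right hlL hL0.le
      linarith only [this, hul]
    have e2 : 4 * (L * L) * (2 / L ^ 7) = 8 / L ^ 5 := by field_simp; norm_num
    have e3 : 8 / L ^ 5 ≤ 8 / L ^ 2 := by
      apply div_le_div_of_nonneg_left (by norm_num) (by positivity)
      exact pow_le_pow_right₀ hL1 (by norm_num)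
    have e4 : 8 / L ^ 2 ≤ 1 / 2 := by
      rw [div_le_div_iff₀ (by positivity) (by norm_num)]
      nlinarith only [hL10']
    have e5 : 2 * (L ^ 2 * l) / L ^ 4 ≤ 2 * (L ^ 2 * L) / L ^ 4 := by
      apply div_le_div_of_nonneg_right _ (by positivity)
      have := mul_le_mul_of_nonneg_left hlL (show 0 ≤ L ^ 2 by positivity)
      linarith only [this]
    have e6 : 2 * (L ^ 2 * L) / L ^ 4 = 2 / L := by field_simp
    have e7 : 2 / L ≤ 1 / 2 := by
      rw [div_le_div_iff₀ hL0 (by norm_num)]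
      linarith only [hL10']
    linarith only [e1, e2, e3, e4, e5, e6, e7]
  have hx0 : 0 ≤ 16 * u ^ 2 * (2 / L ^ 7) + 16 * u / L ^ 4 * (2 * (L ^ 2 * l)) := by positivity
  have hxθ : 16 * u ^ 2 * (2 / L ^ 7) + 16 * u / L ^ 4 * (2 * (L ^ 2 * l)) ≤ θ / 8 := by
    have e0 : u ^ 2 ≤ l ^ 2 * L ^ 2 := by
      have := pow_le_pow_left₀ hu0 hul 2
      linarith only [this, mul_pow l L 2]
    have e1 : 16 * u ^ 2 * (2 / L ^ 7) ≤ 16 * (l ^ 2 * L ^ 2) * (2 / L ^ 7) := by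
      apply mul_le_mul_of_nonneg_right _ (by positivity)
      linarith only [e0]
    have e2 : 16 * (l ^ 2 * L ^ 2) * (2 / L ^ 7) = 32 * (l ^ 2 / L ^ 5) := by field_simp; norm_num
    have e3 : l ^ 2 / L ^ 5 ≤ l ^ 2 / L := by
      apply div_le_div_of_nonneg_left (by positivity) hL0
      calc L = L ^ 1 := (pow_one L).symm
        _ ≤ L ^ 5 := pow_le_pow_right₀ hL1 (by norm_num)
    have e4 : 16 * u / L ^ 4 * (2 * (L ^ 2 * l)) ≤ 16 * (l * L) / L ^ 4 * (2 * (L ^ 2 * l)) := by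
      apply mul_le_mul_of_nonneg_right _ (by positivity)
      apply div_le_div_of_nonneg_right _ (by positivity)
      linarith only [hul]
    have e5 : 16 * (l * L) / L ^ 4 * (2 * (L ^ 2 * l)) = 32 * (l ^ 2 / L) := by
      field_simp; norm_num
    have e6 : 64 * (l ^ 2 / L) ≤ θ / 8 := by
      have f1 : 800 / θ * l ^ 2 ≤ L := (q_mul hM8 (by positivity)).trans a6
      rw [← mul_div_assoc, div_le_div_iff₀ hL0 (by norm_num)]
      have f2 := mul_le_mul_of_nonneg_left f1 hθ0.le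
      have f3 : θ * (800 / θ * l ^ 2) = 800 * l ^ 2 := by field_simp
      rw [f3] at f2
      have f4 : 0 ≤ l ^ 2 := by positivity
      linarith only [f2, f4]
    linarith only [e1, e2, e3, e4, e5, e6]
  obtain ⟨D, hD⟩ := good7_core (PP₁ := PS w y ∅) (PP₂ := PS y z ∅) w y z
    (1 / ((1 - ε) * V * e)) Q (1 / L ^ 4) ε (1 + ε / 16)
    (Real.exp ((1 / 4 - ε) * (1 + ε / 16) * L + 1)) (11 / 10 * e) v₀ (Real.exp e)
    (Real.exp (-(2 * e))) (Real.exp (Y * (2 * b₀ + 4))) (Real.exp (24 * e)) θ u (L ^ 4) (2 / L ^ 7)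
    (2 * (L ^ 2 * l)) J m₀ r hJe hm₀J
    hθ0 hθ1 (fun p hp => PS_mem hy0.le hp) (fun p hp => PS_mem hz0.le hp)
    (card_PS y z hz1.le) (rho_PS w y hw2 hwy)
    hw2 hwy hyz hy9 hz1 hQ1 hε (by linarith only [hε4]) (by linarith only [hε]) hG₂ hprof
    c1 (by positivity) hu0 (by positivity) (Real.exp_pos _).le
    (by rw [Real.exp_le_one_iff]; linarith only [he0])
    hΛ bl B M hMe hbh' (one_le_pow₀ hL1) hL4
    (by rw [hw]; apply le_of_eq; ring) hS₁ hmass hr1 hrm (Real.one_le_exp (by positivity)) huw huδ hv₀0 c3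
    (hEE.trans hEθ)
    (s_tail he1' hC.le hθ0 h72 (u * (V / W)) hlam0 hlam2 hExpL _ hEE)
    (s_mom he1' hC.le hθ0 h12 (u * (V / W)) hlam0 hlam2 J hJ1)
    (s_pen he1' hC.le hθ0 h12 (u * (V / W)) hlam0 hlam2)
    (s_pair7 hθ0 hθ1 (hM8.trans a1) hL2 (hK7.trans he1) he0.le (hel.trans hlL) u hu0 hu2 hL10
      hx0 hxθ)
  refine ⟨D, _, _, _, hD, by positivity, ?_, c5.1, c5.2, hwy, hyz⟩
  exact p_loss K₀ hK1 he1000 helog J r hJ2 hre1

end Pool.Agent.Y831.RC
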