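import Pool.Agent.Y831.RC7.Almost7

set_option autoImplicit false
set_option linter.unusedVariables false

/-! # Long runs in almost all intervals, the full range -/

namespace Pool.Agent.Y831.RC

open Finset Filter Pool.Agent.H256R2.SC

open scoped Classical

theorem LongRun.mono {F F' y H H' : ℝ} {n : ℤ} (h : LongRun F y H n) (hF : F' ≤ F) (hH : H ≤ H') :
    LongRun F' y H' n := by
  obtain ⟨a, h1, h2, h3⟩ := h
  exact ⟨a, h1, by linarith, fun k hk hkF => h3 k hk (hkF.trans hF)⟩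

/-- in almost all intervals `(n, n + e^T log X]`, `n` in an interval of length `X`, there are
`c log X log T` consecutive integers with a prime factor at most `X^δ`, if `c < 1 / 64`,
uniformly for `T₀ ≤ T ≤ log X` -/
theorem almost8 (c δ η : ℝ) (hc : 0 < c) (hc64 : c < 1 / 64) (hδ : 0 < δ) (hη : 0 < η) :
    ∃ T₀ X₀ : ℝ, ∀ X : ℝ, X₀ ≤ X → ∀ T : ℝ, T₀ ≤ T → T ≤ Real.log X → ∀ M : ℝ,
      (((Ioc ⌊M⌋ ⌊M + X⌋).filter (fun n : ℤ => ¬ LongRun (c * (Real.log X * Real.log T)) (X ^ δ)
        (Real.exp T * Real.log X) n)).card : ℝ) ≤ η * X := by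
  obtain ⟨T₁, X₁, h1⟩ := almost7 c δ η hc (by linarith) hδ hη
  obtain ⟨T₂, X₂, h2⟩ := almost7 (2 * c) δ η (by linarith) (by linarith) hδ hη
  refine ⟨max T₁ 1, max (max X₁ X₂) (Real.exp (max T₂ 1 ^ 2)), fun X hX T hT hTL M => ?_⟩
  have hX1 : X₁ ≤ X := ((le_max_left _ _).trans (le_max_left _ _)).trans hX
  have hX2 : X₂ ≤ X := ((le_max_right _ _).trans (le_max_left _ _)).trans hX
  have hX3 : Real.exp (max T₂ 1 ^ 2) ≤ X := (le_max_right _ _).trans hX
  have hX0 : 0 < X := (Real.exp_pos _).trans_le hX3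
  have hL3 : max T₂ 1 ^ 2 ≤ Real.log X := by
    rw [Real.le_log_iff_exp_le hX0]
    exact hX3
  by_cases hTs : T ≤ Real.sqrt (Real.log X)
  · exact h1 X hX1 T ((le_max_left _ _).trans hT) hTs M
  · push Not at hTs
    have hm1 : 1 ≤ max T₂ 1 := le_max_right _ _
    have hL1 : 1 ≤ Real.log X := by nlinarith
    have hL0 : 0 < Real.log X := by linarith
    have hs : max T₂ 1 ≤ Real.sqrt (Real.log X) := Real.le_sqrt_of_sq_le hL3
    have hsL : Real.sqrt (Real.log X) * Real.sqrt (Real.log X) = Real.log X :=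
      Real.mul_self_sqrt hL0.le
    have h3 := h2 X hX2 (Real.sqrt (Real.log X)) ((le_max_left _ _).trans hs) le_rfl M
    refine le_trans ?_ h3
    have hlogs : Real.log (Real.sqrt (Real.log X)) = Real.log (Real.log X) / 2 :=
      Real.log_sqrt hL0.le
    have hT1 : 1 ≤ T := (le_max_right _ _).trans hT
    have hlT : Real.log T ≤ Real.log (Real.log X) := Real.log_le_log (by linarith) hTL
    have h4 : (Ioc ⌊M⌋ ⌊M + X⌋).filter (fun n : ℤ => ¬ LongRun (c * (Real.log X * Real.log T))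
        (X ^ δ) (Real.exp T * Real.log X) n) ⊆
        (Ioc ⌊M⌋ ⌊M + X⌋).filter (fun n : ℤ => ¬ LongRun (2 * c * (Real.log X *
        Real.log (Real.sqrt (Real.log X)))) (X ^ δ)
        (Real.exp (Real.sqrt (Real.log X)) * Real.log X) n) := by
      intro n hn
      rw [Finset.mem_filter] at hn ⊢
      refine ⟨hn.1, fun hrun => hn.2 (hrun.mono ?_ ?_)⟩
      · rw [hlogs]
        have h5 := mul_le_mul_of_nonneg_left hlT hL0.le
        have h6 := mul_le_mul_of_nonneg_left h5 hc.le
        linarith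
      · apply mul_le_mul_of_nonneg_right _ hL0.le
        exact Real.exp_le_exp.2 hTs.le
    exact_mod_cast Finset.card_le_card h4

end Pool.Agent.Y831.RC
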