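import Pool.Agent.Y831.RC6.Second6

set_option autoImplicit false
set_option linter.unusedSectionVars false
set_option linter.unusedVariables false

/-! # Two windows with collisions: the joint law of the colourings -/

namespace Pool.Agent.Y831.RC

open Finset Pool.Agent.H256R2.SC

open scoped Classical

variable {n n₁ n₂ : ℕ} {κ κ' : Type} [Fintype κ] [DecidableEq κ] [Fintype κ'] [DecidableEq κ']

/-- the second colouring, read off with a collision map -/
noncomputable def rcm (τ : Fin n → κ' → κ ⊕ κ') (X : Col n (κ ⊕ κ')) : Col n κ' := fun i =>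
  if h : ∃ l, X i = some (τ i l) then some h.choose else none

theorem rcm_iff {τ : Fin n → κ' → κ ⊕ κ'} (hτ : ∀ i, Function.Injective (τ i))
    (X : Col n (κ ⊕ κ')) (i : Fin n) (l : κ') : rcm τ X i = some l ↔ X i = some (τ i l) := by
  unfold rcm
  constructor
  · intro h
    split_ifs at h with h1
    rw [← Option.some.inj h]
    exact h1.choose_spec
  · intro h
    have h1 : ∃ l, X i = some (τ i l) := ⟨l, h⟩
    rw [dif_pos h1]
    congr 1
    have h2 := h1.choose_spec
    exact (hτ i (Option.some.inj (h.symm.trans h2))).symm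

/-- the local version -/
noncomputable def rcm1 (τ : κ' → κ ⊕ κ') (c : Option (κ ⊕ κ')) : Option κ' :=
  if h : ∃ l, c = some (τ l) then some h.choose else none

theorem rcm_eq (τ : Fin n → κ' → κ ⊕ κ') (X : Col n (κ ⊕ κ')) (i : Fin n) :
    rcm τ X i = rcm1 (τ i) (X i) := rfl

theorem rcm1_iff {τ : κ' → κ ⊕ κ'} (hτ : Function.Injective τ) (c : Option (κ ⊕ κ')) (l : κ') :
    rcm1 τ c = some l ↔ c = some (τ l) := by
  unfold rcm1
  constructor
  · intro h
    split_ifs at h with h1
    rw [← Option.some.inj h]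
    exact h1.choose_spec
  · intro h
    have h1 : ∃ l, c = some (τ l) := ⟨l, h⟩
    rw [dif_pos h1]
    congr 1
    have h2 := h1.choose_spec
    exact (hτ (Option.some.inj (h.symm.trans h2))).symm

theorem rcm1_inr (c : Option (κ ⊕ κ')) : rcm1 (Sum.inr : κ' → κ ⊕ κ') c = rc1 c := by
  apply Option.ext
  intro l
  rw [rcm1_iff Sum.inr_injective, rc1_iff]

/-- the total mass is one -/
theorem sum_wt7 (g : ℝ) : ∑ c : Option κ, wt g c = 1 := by
  rw [Fintype.sum_option]
  simp only [wt, Finset.sum_const, Finset.card_univ, nsmul_eq_mul]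
  ring

/-- the local law of the pair of colours -/
noncomputable def W1 (g : ℝ) (τ : κ' → κ ⊕ κ') (a : Option κ) (b : Option κ') : ℝ :=
  ∑ c : Option (κ ⊕ κ'), if lc1 c = a ∧ rcm1 τ c = b then wt g c else 0

theorem W1_le_one (g : ℝ) (hw : ∀ c : Option (κ ⊕ κ'), 0 ≤ wt g c) (τ : κ' → κ ⊕ κ')
    (a : Option κ) (b : Option κ') : W1 g τ a b ≤ 1 := by
  rw [← sum_wt7 (κ := κ ⊕ κ') g]
  unfold W1
  apply Finset.sum_le_sum
  intro c _
  split_ifs
  · exact le_rfl
  · exact hw c

theorem W1_some_left (g : ℝ) (hg : 0 ≤ g) (τ : κ' → κ ⊕ κ') (k : κ) (b : Option κ') :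
    W1 g τ (some k) b ≤ g := by
  unfold W1
  calc ∑ c : Option (κ ⊕ κ'), (if lc1 c = some k ∧ rcm1 τ c = b then wt g c else 0)
      ≤ ∑ c : Option (κ ⊕ κ'), (if c = some (Sum.inl k) then g else 0) := by
        apply Finset.sum_le_sum
        intro c _
        by_cases h : c = some (Sum.inl k)
        · rw [if_pos h, h]
          split_ifs
          · simp [wt]
          · exact hg
        · rw [if_neg h, if_neg]
          rintro ⟨h1, _⟩
          exact h ((lc1_iff c k).1 h1)
    _ = g := by rw [Finset.sum_ite_eq' univ, if_pos (Finset.mem_univ _)]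

theorem W1_some_right (g : ℝ) (hg : 0 ≤ g) {τ : κ' → κ ⊕ κ'} (hτ : Function.Injective τ)
    (a : Option κ) (l : κ') : W1 g τ a (some l) ≤ g := by
  unfold W1
  calc ∑ c : Option (κ ⊕ κ'), (if lc1 c = a ∧ rcm1 τ c = some l then wt g c else 0)
      ≤ ∑ c : Option (κ ⊕ κ'), (if c = some (τ l) then g else 0) := by
        apply Finset.sum_le_sum
        intro c _
        by_cases h : c = some (τ l)
        · rw [if_pos h, h]
          split_ifs
          · simp [wt]
          · exact hg
        · rw [if_neg h, if_neg]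
          rintro ⟨_, h1⟩
          exact h ((rcm1_iff hτ c l).1 h1)
    _ = g := by rw [Finset.sum_ite_eq' univ, if_pos (Finset.mem_univ _)]

theorem W1_inr_ss (g : ℝ) (k : κ) (l : κ') :
    W1 g (Sum.inr : κ' → κ ⊕ κ') (some k) (some l) = 0 := by
  unfold W1
  apply Finset.sum_eq_zero
  intro c _
  rw [if_neg]
  rintro ⟨h1, h2⟩
  rw [lc1_iff] at h1
  rw [rcm1_iff Sum.inr_injective] at h2
  rw [h1] at h2
  exact absurd (Option.some.inj h2) (by simp)

theorem W1_inr_nn (g : ℝ) (hw : ∀ c : Option (κ ⊕ κ'), 0 ≤ wt g c) :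
    W1 g (Sum.inr : κ' → κ ⊕ κ') (none : Option κ) none ≤
      1 - ((Fintype.card κ : ℝ) + Fintype.card κ') * g := by
  unfold W1
  calc ∑ c : Option (κ ⊕ κ'), (if lc1 c = none ∧ rcm1 (Sum.inr : κ' → κ ⊕ κ') c = none
        then wt g c else 0)
      ≤ ∑ c : Option (κ ⊕ κ'), (if c = none then wt g c else 0) := by
        apply Finset.sum_le_sum
        intro c _
        by_cases h : c = none
        · rw [if_pos h, h]
          split_ifs
          · exact le_rfl
          · exact hw none
        · rw [if_neg h, if_neg]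
          rintro ⟨h1, h2⟩
          rw [rcm1_inr] at h2
          rcases c with _ | (a | b)
          · exact h rfl
          · simp [lc1] at h1
          · simp [rc1] at h2
    _ = _ := by
        rw [Finset.sum_ite_eq' univ, if_pos (Finset.mem_univ _)]
        simp only [wt]
        rw [card_sum_real]

/-- the local comparison; `t` is the perturbation, `cc` the cost -/
theorem W1_le (g t cc u₀ : ℝ) (hg : 0 ≤ g) (hu₀ : 0 ≤ u₀)
    (hu : (Fintype.card κ : ℝ) ≤ u₀) (hu' : (Fintype.card κ' : ℝ) ≤ u₀) (hug : u₀ * g ≤ 1 / 16)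
    {τ : κ' → κ ⊕ κ'} (hτ : Function.Injective τ)
    (h : (τ = Sum.inr ∧ t = 4 * (u₀ * g) ∧ cc = 1 + 16 * (u₀ * g) ^ 2) ∨
      (0 ≤ t ∧ 1 ≤ (1 + t) ^ 2 * g ∧ u₀ * (g * (1 + t)) ≤ 1 / 4 ∧
        cc = (1 + 4 * (u₀ * (g * (1 + t)))) ^ 2))
    (a : Option κ) (b : Option κ') :
    W1 g τ a b ≤ cc * (wt (g * (1 + t)) a * wt (g * (1 + t)) b) := by
  set u : ℝ := (Fintype.card κ : ℝ) with hud
  set u' : ℝ := (Fintype.card κ' : ℝ) with hud'
  have hu0 : 0 ≤ u := Nat.cast_nonneg _
  have hu0' : 0 ≤ u' := Nat.cast_nonneg _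
  have hux : u * g ≤ u₀ * g := mul_le_mul_of_nonneg_right hu hg
  have hux' : u' * g ≤ u₀ * g := mul_le_mul_of_nonneg_right hu' hg
  have hug0 : 0 ≤ u * g := mul_nonneg hu0 hg
  have hug0' : 0 ≤ u' * g := mul_nonneg hu0' hg
  have hw : ∀ c : Option (κ ⊕ κ'), 0 ≤ wt g c := fun c => wt_nonneg hg (by
    rw [card_sum_real, ← hud, ← hud']; linarith) c
  rcases h with ⟨rfl, ht, hc⟩ | ⟨ht0, h1, h2, hc⟩
  · set x : ℝ := u₀ * g with hx
    have hx0 : 0 ≤ x := mul_nonneg hu₀ hg
    have hcc1 : 1 ≤ cc := by rw [hc]; nlinarith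
    have hgt : g * (1 + t) = g + 4 * x * g := by rw [ht]; ring
    have hprod : 1 ≤ (1 + 4 * x) * (1 - x * (1 + 4 * x)) := by nlinarith
    cases a with
    | none =>
      cases b with
      | none =>
        refine (W1_inr_nn g hw).trans ?_
        simp only [wt]
        rw [← hud, ← hud', hc]
        have e1 : u * (g * (1 + t)) = u * g * (1 + 4 * x) := by rw [ht]; ring
        have e2 : u' * (g * (1 + t)) = u' * g * (1 + 4 * x) := by rw [ht]; ring
        rw [e1, e2]
        have e3 : 0 ≤ (u * g * (1 + 4 * x)) * (u' * g * (1 + 4 * x)) := by positivity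
        have e4 : 1 - (u + u') * g - 8 * x ^ 2 ≤
            (1 - u * g * (1 + 4 * x)) * (1 - u' * g * (1 + 4 * x)) := by nlinarith
        have e5 : 0 ≤ 1 + 16 * x ^ 2 := by positivity
        have e6 := mul_le_mul_of_nonneg_left e4 e5
        refine le_trans ?_ e6
        have e7 : 7 / 8 ≤ 1 - (u + u') * g := by nlinarith
        have e8 : 0 ≤ x ^ 2 := sq_nonneg x
        have e9 : x ^ 2 ≤ 1 / 256 := by nlinarith
        nlinarith
      | some l =>
        refine (W1_some_right g hg hτ none l).trans ?_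
        simp only [wt]
        rw [← hud]
        have e1 : (1 - u * (g * (1 + t))) * (g * (1 + t)) =
            g * ((1 + 4 * x) * (1 - (u * g) * (1 + 4 * x))) := by rw [ht]; ring
        rw [e1]
        have e2 : 1 ≤ (1 + 4 * x) * (1 - (u * g) * (1 + 4 * x)) := by
          refine hprod.trans ?_
          apply mul_le_mul_of_nonneg_left _ (by positivity)
          have := mul_le_mul_of_nonneg_right hux (show 0 ≤ 1 + 4 * x by positivity)
          linarith
        have e3 := mul_le_mul_of_nonneg_left e2 hg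
        have e4 : 0 ≤ g * ((1 + 4 * x) * (1 - (u * g) * (1 + 4 * x))) := by linarith
        nlinarith
    | some k =>
      cases b with
      | none =>
        refine (W1_some_left g hg _ k none).trans ?_
        simp only [wt]
        rw [← hud']
        have e1 : g * (1 + t) * (1 - u' * (g * (1 + t))) =
            g * ((1 + 4 * x) * (1 - (u' * g) * (1 + 4 * x))) := by rw [ht]; ring
        rw [e1]
        have e2 : 1 ≤ (1 + 4 * x) * (1 - (u' * g) * (1 + 4 * x)) := by
          refine hprod.trans ?_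
          apply mul_le_mul_of_nonneg_left _ (by positivity)
          have := mul_le_mul_of_nonneg_right hux' (show 0 ≤ 1 + 4 * x by positivity)
          linarith
        have e3 := mul_le_mul_of_nonneg_left e2 hg
        have e4 : 0 ≤ g * ((1 + 4 * x) * (1 - (u' * g) * (1 + 4 * x))) := by linarith
        nlinarith
      | some l =>
        rw [W1_inr_ss]
        simp only [wt]
        have : 0 ≤ g * (1 + t) := by rw [hgt]; positivity
        positivity
  · set y : ℝ := u₀ * (g * (1 + t)) with hy
    have hG : g ≤ g * (1 + t) := by nlinarith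
    have hG0 : 0 ≤ g * (1 + t) := hg.trans hG
    have hy0 : 0 ≤ y := mul_nonneg hu₀ hG0
    have huy : u * (g * (1 + t)) ≤ y := mul_le_mul_of_nonneg_right hu hG0
    have huy' : u' * (g * (1 + t)) ≤ y := mul_le_mul_of_nonneg_right hu' hG0
    have hp : 1 ≤ (1 + 4 * y) * (1 - y) := by nlinarith
    have h14 : 1 ≤ 1 + 4 * y := by linarith
    have hcc : cc = (1 + 4 * y) * (1 + 4 * y) := by rw [hc]; ring
    have h1y : 0 ≤ 1 - y := by linarith
    cases a with
    | none =>
      cases b with
      | none =>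
        refine (W1_le_one g hw τ none none).trans ?_
        simp only [wt]
        rw [← hud, ← hud', hcc]
        have e1 : 1 ≤ (1 + 4 * y) * (1 - u * (g * (1 + t))) :=
          hp.trans (mul_le_mul_of_nonneg_left (by linarith) (by linarith))
        have e2 : 1 ≤ (1 + 4 * y) * (1 - u' * (g * (1 + t))) :=
          hp.trans (mul_le_mul_of_nonneg_left (by linarith) (by linarith))
        have e3 := mul_le_mul e1 e2 zero_le_one (by linarith)
        linarith
      | some l =>
        refine (W1_some_right g hg hτ none l).trans ?_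
        simp only [wt]
        rw [← hud, hcc]
        have e1 : 1 ≤ (1 + 4 * y) * (1 - u * (g * (1 + t))) :=
          hp.trans (mul_le_mul_of_nonneg_left (by linarith) (by linarith))
        have e2 := mul_le_mul e1 h14 zero_le_one (by linarith)
        have e3 := mul_le_mul e2 hG hg (by linarith)
        linarith
    | some k =>
      cases b with
      | none =>
        refine (W1_some_left g hg _ k none).trans ?_
        simp only [wt]
        rw [← hud', hcc]
        have e1 : 1 ≤ (1 + 4 * y) * (1 - u' * (g * (1 + t))) :=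
          hp.trans (mul_le_mul_of_nonneg_left (by linarith) (by linarith))
        have e2 := mul_le_mul e1 h14 zero_le_one (by linarith)
        have e3 := mul_le_mul e2 hG hg (by linarith)
        linarith
      | some l =>
        refine (W1_some_left g hg _ k _).trans ?_
        simp only [wt]
        rw [hcc]
        have e1 : g ≤ (g * (1 + t)) * (g * (1 + t)) := by
          have := mul_le_mul_of_nonneg_left h1 hg
          linarith
        have e2 : 1 ≤ (1 + 4 * y) * (1 + 4 * y) := by nlinarith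
        have e3 : 0 ≤ (g * (1 + t)) * (g * (1 + t)) := by positivity
        nlinarith

/-- comparison with the product law, with collisions -/
theorem EE_couple7 (g t cc : Fin n → ℝ) (u₀ : ℝ) (hg : ∀ i, 0 ≤ g i) (hu₀ : 0 ≤ u₀)
    (hu : (Fintype.card κ : ℝ) ≤ u₀) (hu' : (Fintype.card κ' : ℝ) ≤ u₀)
    (hug : ∀ i, u₀ * g i ≤ 1 / 16) (τ : Fin n → κ' → κ ⊕ κ')
    (hτ : ∀ i, Function.Injective (τ i))
    (h : ∀ i, (τ i = Sum.inr ∧ t i = 4 * (u₀ * g i) ∧ cc i = 1 + 16 * (u₀ * g i) ^ 2) ∨
      (0 ≤ t i ∧ 1 ≤ (1 + t i) ^ 2 * g i ∧ u₀ * (g i * (1 + t i)) ≤ 1 / 4 ∧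
        cc i = (1 + 4 * (u₀ * (g i * (1 + t i)))) ^ 2))
    (A : Col n κ → ℝ) (B : Col n κ' → ℝ) (hA : ∀ x, 0 ≤ A x) (hB : ∀ x, 0 ≤ B x) :
    EE g (fun X : Col n (κ ⊕ κ') => A (lc X) * B (rcm τ X)) ≤
      (∏ i, cc i) * (EE (fun i => g i * (1 + t i)) A * EE (fun i => g i * (1 + t i)) B) := by
  have hw : ∀ i (c : Option (κ ⊕ κ')), 0 ≤ wt (g i) c := fun i c => wt_nonneg (hg i) (by
    rw [card_sum_real]
    have e1 := mul_le_mul_of_nonneg_right hu (hg i)
    have e2 := mul_le_mul_of_nonneg_right hu' (hg i)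
    have e3 := hug i
    linarith) c
  have hW0 : ∀ i a b, 0 ≤ W1 (g i) (τ i) a b := by
    intro i a b
    unfold W1
    apply Finset.sum_nonneg
    intro c _
    split_ifs
    · exact hw i c
    · exact le_rfl
  have h1 : EE g (fun X : Col n (κ ⊕ κ') => A (lc X) * B (rcm τ X)) =
      ∑ x : Col n κ, ∑ x' : Col n κ', (∏ i, W1 (g i) (τ i) (x i) (x' i)) * (A x * B x') := by
    have e1 : ∀ (x : Col n κ) (x' : Col n κ'), ∏ i, W1 (g i) (τ i) (x i) (x' i) =
        ∑ X : Col n (κ ⊕ κ'), ∏ i, (if lc1 (X i) = x i ∧ rcm1 (τ i) (X i) = x' i then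
          wt (g i) (X i) else 0) := by
      intro x x'
      unfold W1
      rw [Finset.prod_univ_sum, Fintype.piFinset_univ]
    simp only [e1, Finset.sum_mul]
    unfold EE
    have e2 : ∀ X : Col n (κ ⊕ κ'), (∏ i, wt (g i) (X i)) * (A (lc X) * B (rcm τ X)) =
        ∑ x : Col n κ, ∑ x' : Col n κ', (∏ i, (if lc1 (X i) = x i ∧ rcm1 (τ i) (X i) = x' i then
          wt (g i) (X i) else 0)) * (A x * B x') := by
      intro X
      rw [Finset.sum_eq_single (lc X), Finset.sum_eq_single (rcm τ X)]
      · congr 1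
        refine Finset.prod_congr rfl fun i _ => ?_
        rw [if_pos ⟨rfl, rfl⟩]
      · intro x' _ hx'
        have : ∃ i, ¬ (lc1 (X i) = lc X i ∧ rcm1 (τ i) (X i) = x' i) := by
          by_contra hc
          push Not at hc
          apply hx'
          funext i
          exact (hc i).2.symm
        obtain ⟨i, hi⟩ := this
        rw [Finset.prod_eq_zero (Finset.mem_univ i) (if_neg hi), zero_mul]
      · intro hx
        exact absurd (Finset.mem_univ _) hx
      · intro x _ hx
        apply Finset.sum_eq_zero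
        intro x' _
        have : ∃ i, ¬ (lc1 (X i) = x i ∧ rcm1 (τ i) (X i) = x' i) := by
          by_contra hc
          push Not at hc
          apply hx
          funext i
          exact (hc i).1.symm
        obtain ⟨i, hi⟩ := this
        rw [Finset.prod_eq_zero (Finset.mem_univ i) (if_neg hi), zero_mul]
      · intro hx
        exact absurd (Finset.mem_univ _) hx
    rw [Finset.sum_congr rfl fun X _ => e2 X, Finset.sum_comm]
    refine Finset.sum_congr rfl fun x _ => ?_
    rw [Finset.sum_comm]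
  rw [h1]
  have h2 : (∏ i, cc i) * (EE (fun i => g i * (1 + t i)) A * EE (fun i => g i * (1 + t i)) B) =
      ∑ x : Col n κ, ∑ x' : Col n κ', (∏ i, (cc i * (wt (g i * (1 + t i)) (x i) *
        wt (g i * (1 + t i)) (x' i)))) * (A x * B x') := by
    unfold EE
    rw [Finset.sum_mul_sum, Finset.mul_sum]
    refine Finset.sum_congr rfl fun x _ => ?_
    rw [Finset.mul_sum]
    refine Finset.sum_congr rfl fun x' _ => ?_
    rw [Finset.prod_mul_distrib, Finset.prod_mul_distrib]
    ring
  rw [h2]
  apply Finset.sum_le_sum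
  intro x _
  apply Finset.sum_le_sum
  intro x' _
  apply mul_le_mul_of_nonneg_right _ (mul_nonneg (hA x) (hB x'))
  apply Finset.prod_le_prod
  · intro i _
    exact hW0 i _ _
  · intro i _
    exact W1_le (g i) (t i) (cc i) u₀ (hg i) hu₀ hu hu' (hug i) (hτ i) (h i) (x i) (x' i)

/-- coefficient sums -/
theorem Lw_rcm {τ : Fin n → κ' → κ ⊕ κ'} (hτ : ∀ i, Function.Injective (τ i))
    {B : ℝ} {F : Col n κ' → ℝ} (h : Lw B F) :
    Lw B (fun X : Col n (κ ⊕ κ') => F (rcm τ X)) := by
  obtain ⟨f, h1, h2, _⟩ := h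
  have h3 := Lw_sum (n := n) (κ := κ ⊕ κ') univ (fun D : Col n κ' => |f D| * 1)
    (fun D X => f D * ind (fun i => (D i).map (τ i)) X)
    (fun D _ => Lw_smul _ (Lw_ind _))
  have h4 : (fun X : Col n (κ ⊕ κ') => F (rcm τ X)) = fun X => ∑ D : Col n κ',
      f D * ind (fun i => (D i).map (τ i)) X := by
    funext X
    rw [h1]
    refine Finset.sum_congr rfl fun D _ => ?_
    congr 1
    unfold ind
    have : (∀ i, D i ≠ none → rcm τ X i = D i) ↔
        (∀ i, (D i).map (τ i) ≠ none → X i = (D i).map (τ i)) := by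
      apply forall_congr'
      intro i
      cases hD : D i with
      | none => simp
      | some k =>
        simp only [ne_eq, reduceCtorEq, not_false_eq_true, true_imp_iff, Option.map_some]
        exact rcm_iff hτ X i k
    simp only [this]
  rw [h4]
  refine Lw_mono ?_ h3
  simpa using h2

end Pool.Agent.Y831.RC
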